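import Pool.Agent.H1.GS.Sbc

/-!
# [H1 GS SCH] A ray class character on the elements of an ideal in a box, any signature

As H1/LS4/Sch.
-/

set_option autoImplicit false

open scoped NumberField Classical
open NumberField NumberField.Units NumberField.Units.dirichletUnitTheorem H63.MA H36.QA H57.TLS MeasureTheory H1.LS4

noncomputable section

namespace H1.GS

private theorem sch_card {F : Type} [Field F] [NumberField F] {𝔫 𝔣 : Ideal (𝓞 F)} (h𝔫 : 𝔫 ≠ ⊥) :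
    Set.ncard {r : 𝓞 F ⧸ (𝔫 * 𝔣) | ∃ x ∈ 𝔫, Ideal.Quotient.mk (𝔫 * 𝔣) x = r} ≤
      Ideal.absNorm 𝔣 := by
  have hle : 𝔫 * 𝔣 ≤ 𝔫 := Ideal.mul_le_left
  have hle' : (𝔫 * 𝔣).toAddSubgroup ≤ 𝔫.toAddSubgroup := fun x hx => hle hx
  have h1 := AddSubgroup.relIndex_mul_index hle'
  have h2 : ∀ I : Ideal (𝓞 F), I.toAddSubgroup.index = Ideal.absNorm I := fun I => rfl
  rw [h2, h2, map_mul, mul_comm] at h1
  have h3 : Ideal.absNorm 𝔫 ≠ 0 := fun h => h𝔫 (Ideal.absNorm_eq_zero_iff.1 h)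
  have h4 := Nat.eq_of_mul_eq_mul_left (Nat.pos_of_ne_zero h3) h1
  let f : 𝔫.toAddSubgroup →+ 𝓞 F ⧸ (𝔫 * 𝔣) :=
    (Ideal.Quotient.mk (𝔫 * 𝔣)).toAddMonoidHom.comp 𝔫.toAddSubgroup.subtype
  have h5 : f.ker = (𝔫 * 𝔣).toAddSubgroup.addSubgroupOf 𝔫.toAddSubgroup := by
    ext x
    rw [AddMonoidHom.mem_ker, AddSubgroup.mem_addSubgroupOf]
    exact Ideal.Quotient.eq_zero_iff_mem
  have h6 := AddSubgroup.index_ker f
  rw [h5] at h6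
  have h7 : (𝔫 * 𝔣).toAddSubgroup.relIndex 𝔫.toAddSubgroup =
      ((𝔫 * 𝔣).toAddSubgroup.addSubgroupOf 𝔫.toAddSubgroup).index := rfl
  rw [← h4, h7, h6]
  have h8 : {r : 𝓞 F ⧸ (𝔫 * 𝔣) | ∃ x ∈ 𝔫, Ideal.Quotient.mk (𝔫 * 𝔣) x = r} =
      (f.range : Set (𝓞 F ⧸ (𝔫 * 𝔣))) := by
    ext r
    constructor
    · rintro ⟨x, hx, rfl⟩
      exact ⟨⟨x, hx⟩, rfl⟩
    · rintro ⟨⟨x, hx⟩, rfl⟩
      exact ⟨x, hx, rfl⟩
  rw [h8]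
  exact le_of_eq rfl

private theorem sch_norm {F : Type} [Field F] [NumberField F] {𝔣 : Ideal (𝓞 F)} (χ : RC F 𝔣)
    {I : Ideal (𝓞 F)} (hI : I ≠ ⊥) : ‖χ.χ I‖ ≤ 1 := by
  by_cases h : IsCoprime I 𝔣
  · rw [χ.norm_one I hI h]
  · rw [χ.zero_of I h, norm_zero]
    exact zero_le_one

private theorem sch_cast (c : ℕ) (W k : ℝ) : ‖((c : ℕ) : ℂ) * (W : ℂ) - (k : ℂ)‖ = |(c : ℝ) * W - k| := by
  have h : ((c : ℕ) : ℂ) * (W : ℂ) - (k : ℂ) = (((c : ℝ) * W - k : ℝ) : ℂ) := by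
    push_cast
    ring
  rw [h, Complex.norm_real, Real.norm_eq_abs]

theorem sch (n m : ℕ) (hn : 0 < n) : ∃ C : ℝ, 1 ≤ C ∧ ∃ A : ℕ, ∀ (F : Type) [Field F] [NumberField F], TD F n m →
    ∀ 𝔣 : Ideal (𝓞 F), 𝔣 ≠ ⊥ → ∀ χ : RC F 𝔣, ∀ 𝔫 : Ideal (𝓞 F), 𝔫 ≠ ⊥ → ∀ t : InfinitePlace F → ℝ, (∀ w, 0 < t w) →
      ∀ θ : ℝ, 0 < θ → θ ≤ 1 → C * dd F ^ A * (Ideal.absNorm 𝔫 * Ideal.absNorm 𝔣) ≤ θ ^ n * PG F t →
        ‖(∑ α ∈ bxf 𝔫 t, fj χ 𝔫 α) * ((Ideal.absNorm 𝔫 * Ideal.absNorm 𝔣 * Real.sqrt (dd F) : ℝ) : ℂ) -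
          Mres χ 𝔫 * ((kpg n m * PG F t : ℝ) : ℂ)‖ ≤ C * (Ideal.absNorm 𝔣 * (θ * PG F t)) := by
  obtain ⟨C, hC, A, hbox⟩ := sbc n m hn
  refine ⟨C + 1, by linarith, A + 1, ?_⟩
  intro F _ _ hF 𝔣 h𝔣 χ 𝔫 h𝔫 t ht θ hθ hθ1 hyp
  have hN : 𝔫 * 𝔣 ≠ ⊥ := mul_ne_zero h𝔫 h𝔣
  have hNm : (Ideal.absNorm (𝔫 * 𝔣) : ℝ) = Ideal.absNorm 𝔫 * Ideal.absNorm 𝔣 := by
    rw [map_mul]
    push_cast
    rfl
  have hP : 0 < PG F t := PG_pos ht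
  obtain ⟨P, hPd⟩ : ∃ P, P = PG F t := ⟨_, rfl⟩
  rw [← hPd] at hyp hP ⊢
  have hdd : 1 ≤ dd F := by
    unfold dd
    have h1 : (1 : ℤ) ≤ |NumberField.discr F| := Int.one_le_abs (NumberField.discr_ne_zero F)
    exact_mod_cast h1
  have hdd0 : 0 < dd F := by linarith
  have hN0 : 0 ≤ (Ideal.absNorm 𝔫 : ℝ) * Ideal.absNorm 𝔣 := by positivity
  have hddA : dd F ^ A ≤ dd F ^ (A + 1) := pow_le_pow_right₀ hdd (Nat.le_succ A)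
  have hddA1 : dd F ≤ dd F ^ (A + 1) := by
    calc dd F = dd F ^ 1 := (pow_one _).symm
      _ ≤ dd F ^ (A + 1) := pow_le_pow_right₀ hdd (by omega)
  have hyp1 : C * dd F ^ A * Ideal.absNorm (𝔫 * 𝔣) ≤ θ ^ n * P := by
    rw [hNm]
    refine le_trans ?_ hyp
    refine mul_le_mul_of_nonneg_right ?_ hN0
    exact mul_le_mul (by linarith) hddA (by positivity) (by linarith)
  have hθn : θ ^ n ≤ θ := by
    calc θ ^ n ≤ θ ^ 1 := pow_le_pow_of_le_one hθ.le hθ1 hn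
      _ = θ := pow_one θ
  set W : ℝ := Ideal.absNorm (𝔫 * 𝔣) * Real.sqrt (dd F) with hW
  have hW0 : 0 ≤ W := by positivity
  have hWP : W ≤ θ * P := by
    have h1 : Real.sqrt (dd F) ≤ dd F := by
      rw [Real.sqrt_le_left hdd0.le]
      nlinarith
    have h2 : W ≤ (C + 1) * dd F ^ (A + 1) * (Ideal.absNorm 𝔫 * Ideal.absNorm 𝔣) := by
      rw [hW, hNm, mul_comm]
      refine mul_le_mul_of_nonneg_right ?_ hN0
      have h3 : 0 ≤ dd F ^ (A + 1) := by positivity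
      nlinarith
    exact (h2.trans hyp).trans (mul_le_mul_of_nonneg_right hθn hP.le)
  have hfin : Finite (𝓞 F ⧸ (𝔫 * 𝔣)) := Ideal.finiteQuotientOfFreeOfNeBot _ hN
  have : Fintype (𝓞 F ⧸ (𝔫 * 𝔣)) := Fintype.ofFinite _
  have hM' : ∑ r : 𝓞 F ⧸ (𝔫 * 𝔣), idorthF χ 𝔫 r = Mres χ 𝔫 := by
    rw [← finsum_eq_sum_of_fintype]
    rfl
  -- the sum over the box
  have hS : ∑ α ∈ bxf 𝔫 t, fj χ 𝔫 α = ∑ r : 𝓞 F ⧸ (𝔫 * 𝔣),
      ((((bxf 𝔫 t).filter fun α => Ideal.Quotient.mk (𝔫 * 𝔣) α = r).card : ℕ) : ℂ) *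
        idorthF χ 𝔫 r := by
    rw [← Finset.sum_fiberwise (bxf 𝔫 t) (fun α => Ideal.Quotient.mk (𝔫 * 𝔣) α)]
    refine Finset.sum_congr rfl fun r _ => ?_
    rw [← nsmul_eq_mul, ← Finset.sum_const]
    refine Finset.sum_congr rfl fun α hα => ?_
    obtain ⟨h1, h2⟩ := Finset.mem_filter.1 hα
    obtain ⟨h3, h4, -⟩ := mem_bxf.1 h1
    rw [← h2, idorthF_eq h𝔣 χ h𝔫 h3 h4]
  have hpos : 0 ≤ (C + 1) * (θ * P) := by positivity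
  have hkey : ∀ r : 𝓞 F ⧸ (𝔫 * 𝔣),
      ‖(((((bxf 𝔫 t).filter fun α => Ideal.Quotient.mk (𝔫 * 𝔣) α = r).card : ℕ) : ℂ) * (W : ℂ) -
        ((kpg n m * P : ℝ) : ℂ)) * idorthF χ 𝔫 r‖ ≤
        if ∃ x ∈ 𝔫, Ideal.Quotient.mk (𝔫 * 𝔣) x = r then (C + 1) * (θ * P) else 0 := by
    intro r
    by_cases hr : ∃ y ∈ 𝔫, y ≠ 0 ∧ Ideal.Quotient.mk (𝔫 * 𝔣) y = r
    · obtain ⟨y, hy, hy0, rfl⟩ := hr
      rw [if_pos ⟨y, hy, rfl⟩, idorthF_eq h𝔣 χ h𝔫 hy hy0]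
      obtain ⟨𝔪, hm⟩ := idPer_exists hy
      have hm0 := idPer_ne_bot hy0 hm
      rw [fj_spec χ h𝔫 hm]
      set T : Set (𝓞 F) := {α : 𝓞 F | α - y ∈ 𝔫 * 𝔣 ∧ BxF t α} with hT
      have hTfin : T.Finite := (finite_bxF t).subset fun _ h => h.2
      have hset : (((bxf 𝔫 t).filter fun α =>
          Ideal.Quotient.mk (𝔫 * 𝔣) α = Ideal.Quotient.mk (𝔫 * 𝔣) y : Finset (𝓞 F)) :
          Set (𝓞 F)) = T \ {0} := by
        ext α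
        rw [Finset.mem_coe, Finset.mem_filter, mem_bxf, Ideal.Quotient.eq]
        constructor
        · rintro ⟨⟨-, h0, h1⟩, h2⟩
          exact ⟨⟨h2, h1⟩, h0⟩
        · rintro ⟨⟨h1, h2⟩, h0⟩
          refine ⟨⟨?_, h0, h2⟩, h1⟩
          have h3 : α = (α - y) + y := by ring
          rw [h3]
          exact 𝔫.add_mem (Ideal.mul_le_left h1) hy
      have hcard : ((bxf 𝔫 t).filter fun α =>
          Ideal.Quotient.mk (𝔫 * 𝔣) α = Ideal.Quotient.mk (𝔫 * 𝔣) y).card =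
          (T \ {0}).ncard := by
        rw [← hset, Set.ncard_coe_finset]
      rw [hcard]
      have h1 := hbox F hF (𝔫 * 𝔣) hN t ht θ hθ hθ1 (by rw [← hPd]; exact hyp1) y
      rw [← hPd] at h1
      have hc1 : ((T \ {0}).ncard : ℝ) ≤ T.ncard := by
        exact_mod_cast Set.ncard_le_ncard Set.diff_subset hTfin
      have hc2 : (T.ncard : ℝ) ≤ (T \ {0}).ncard + 1 := by
        have h2 := Set.pred_ncard_le_ncard_diff_singleton T (0 : 𝓞 F)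
        have h3 : T.ncard ≤ (T \ {0}).ncard + 1 := by omega
        exact_mod_cast h3
      have h5 : |((T \ {0}).ncard : ℝ) * W - kpg n m * P| ≤ (C + 1) * (θ * P) := by
        have h6 : |(T.ncard : ℝ) * W - kpg n m * P| ≤ C * (θ * P) := h1
        rw [abs_le] at h6 ⊢
        have h7 := mul_le_mul_of_nonneg_right hc1 hW0
        have h8 := mul_le_mul_of_nonneg_right hc2 hW0
        constructor
        · linarith [h6.1]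
        · linarith [h6.2]
      rw [norm_mul, sch_cast]
      have h4 := mul_le_mul h5 (sch_norm χ hm0) (norm_nonneg _) hpos
      rw [mul_one] at h4
      exact h4
    · have h0 : idorthF χ 𝔫 r = 0 := dif_neg hr
      rw [h0, mul_zero, norm_zero]
      split_ifs
      · exact hpos
      · exact le_rfl
  have hSW : (∑ α ∈ bxf 𝔫 t, fj χ 𝔫 α) * (W : ℂ) - Mres χ 𝔫 * ((kpg n m * P : ℝ) : ℂ) =
      ∑ r : 𝓞 F ⧸ (𝔫 * 𝔣),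
      (((((bxf 𝔫 t).filter fun α => Ideal.Quotient.mk (𝔫 * 𝔣) α = r).card : ℕ) : ℂ) * (W : ℂ) -
        ((kpg n m * P : ℝ) : ℂ)) * idorthF χ 𝔫 r := by
    have h1 : ∀ r : 𝓞 F ⧸ (𝔫 * 𝔣),
        (((((bxf 𝔫 t).filter fun α => Ideal.Quotient.mk (𝔫 * 𝔣) α = r).card : ℕ) : ℂ) * (W : ℂ) -
        ((kpg n m * P : ℝ) : ℂ)) * idorthF χ 𝔫 r =
        ((((bxf 𝔫 t).filter fun α => Ideal.Quotient.mk (𝔫 * 𝔣) α = r).card : ℕ) : ℂ) *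
          idorthF χ 𝔫 r * (W : ℂ) - idorthF χ 𝔫 r * ((kpg n m * P : ℝ) : ℂ) := fun r => by ring
    rw [Finset.sum_congr rfl fun r _ => h1 r, Finset.sum_sub_distrib, ← Finset.sum_mul,
      ← Finset.sum_mul, hM', hS]
  have hWe : (Ideal.absNorm 𝔫 * Ideal.absNorm 𝔣 * Real.sqrt (dd F) : ℝ) = W := by
    rw [hW, hNm]
  rw [hWe, hSW]
  refine (norm_sum_le _ _).trans ((Finset.sum_le_sum fun r _ => hkey r).trans ?_)
  rw [← Finset.sum_filter, Finset.sum_const, nsmul_eq_mul]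
  have h2 := sch_card (F := F) (𝔫 := 𝔫) (𝔣 := 𝔣) h𝔫
  have h3 : (Finset.univ.filter fun r : 𝓞 F ⧸ (𝔫 * 𝔣) =>
      ∃ x ∈ 𝔫, Ideal.Quotient.mk (𝔫 * 𝔣) x = r).card =
      {r : 𝓞 F ⧸ (𝔫 * 𝔣) | ∃ x ∈ 𝔫, Ideal.Quotient.mk (𝔫 * 𝔣) x = r}.ncard := by
    rw [← Set.ncard_coe_finset]
    congr 1
    ext r
    simp
  rw [h3]
  have h4 : ((({r : 𝓞 F ⧸ (𝔫 * 𝔣) | ∃ x ∈ 𝔫, Ideal.Quotient.mk (𝔫 * 𝔣) x = r}.ncard : ℕ)) : ℝ) ≤
      Ideal.absNorm 𝔣 := by exact_mod_cast h2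
  calc _ ≤ (Ideal.absNorm 𝔣 : ℝ) * ((C + 1) * (θ * P)) := mul_le_mul_of_nonneg_right h4 hpos
    _ = _ := by ring

end H1.GS
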