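import Pool.Agent.H1.GS.Hrb
import Pool.Agent.H1.GS.Sch

/-!
# [H1 GS ASM] The weighted sum of a ray class character, any signature

As H1/LS4/Asm.
-/

set_option autoImplicit false

open scoped NumberField Classical
open NumberField NumberField.Units NumberField.Units.dirichletUnitTheorem H63.MA H36.QA H57.TLS MeasureTheory H1.LS4

noncomputable section

namespace H1.GS

private theorem asm_norm {F : Type} [Field F] [NumberField F] {𝔣 : Ideal (𝓞 F)} (χ : RC F 𝔣)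
    {I : Ideal (𝓞 F)} (hI : I ≠ ⊥) : ‖χ.χ I‖ ≤ 1 := by
  by_cases h : IsCoprime I 𝔣
  · rw [χ.norm_one I hI h]
  · rw [χ.zero_of I h, norm_zero]
    exact zero_le_one

private theorem asm_pos {F : Type} [Field F] [NumberField F] {I : Ideal (𝓞 F)} (hI : I ≠ ⊥) :
    (1 : ℝ) ≤ Ideal.absNorm I := by
  have h : Ideal.absNorm I ≠ 0 := fun h => hI (Ideal.absNorm_eq_zero_iff.1 h)
  exact_mod_cast Nat.pos_of_ne_zero h

private theorem asm_exp {n : ℕ} (hn : 0 < n) : 0 ≤ 1 - 1 / (n : ℝ) := by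
  rw [sub_nonneg, div_le_one (by positivity)]
  exact_mod_cast hn

/-- the trivial bound -/
private theorem asm_small {n m : ℕ} {C₂ : ℝ} {F : Type} [Field F] [NumberField F]
    (h2 : ∀ Z : ℝ, 2 ≤ Z → ∑ 𝔫 ∈ IN F Z, (1 : ℝ) / Ideal.absNorm 𝔫 ≤ C₂ * Real.log Z ^ n)
    {𝔣 : Ideal (𝓞 F)} (χ : RC F 𝔣) {M Z : ℝ} (hM : 1 ≤ M) (hZ : 2 ≤ Z) (hMZ : M ≤ Z) :
    ‖∑ I ∈ IN F M, χ.χ I * ((Real.log (M / Ideal.absNorm I) ^ m : ℝ) : ℂ)‖ ≤
      C₂ * Z ^ (m + n + 1) := by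
  have hlZ : 0 ≤ Real.log Z := Real.log_nonneg (by linarith)
  have hlZ' : Real.log Z ≤ Z := by
    have := Real.log_le_sub_one_of_pos (show 0 < Z by linarith)
    linarith
  have hC2 : 0 ≤ C₂ := by
    have h3 := h2 Z hZ
    have h4 : 0 ≤ ∑ 𝔫 ∈ IN F Z, (1 : ℝ) / Ideal.absNorm 𝔫 :=
      Finset.sum_nonneg fun _ _ => by positivity
    by_contra hneg
    push Not at hneg
    have h5 : 0 < Real.log Z ^ n := pow_pos (Real.log_pos (by linarith)) n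
    nlinarith
  have hterm : ∀ I ∈ IN F M, ‖χ.χ I * ((Real.log (M / Ideal.absNorm I) ^ m : ℝ) : ℂ)‖ ≤
      Real.log Z ^ m * (Z * (1 / Ideal.absNorm I)) := by
    intro I hI
    obtain ⟨hI1, hI0⟩ := (mem_IN (by linarith)).1 hI
    have hN := asm_pos hI0
    have hN0 : (0 : ℝ) < Ideal.absNorm I := by linarith
    have hl0 : 0 ≤ Real.log (M / Ideal.absNorm I) := Real.log_nonneg (by rwa [le_div_iff₀ hN0, one_mul])
    have hl1 : Real.log (M / Ideal.absNorm I) ≤ Real.log Z := by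
      refine Real.log_le_log (by positivity) ?_
      rw [div_le_iff₀ hN0]
      nlinarith
    rw [norm_mul, Complex.norm_real, Real.norm_eq_abs, abs_of_nonneg (pow_nonneg hl0 _)]
    have h3 : (1 : ℝ) ≤ Z * (1 / Ideal.absNorm I) := by
      rw [mul_one_div, le_div_iff₀ hN0]
      linarith
    calc ‖χ.χ I‖ * Real.log (M / Ideal.absNorm I) ^ m ≤ 1 * Real.log Z ^ m := by
          exact mul_le_mul (asm_norm χ hI0) (pow_le_pow_left₀ hl0 hl1 m) (pow_nonneg hl0 _) zero_le_one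
      _ = Real.log Z ^ m * 1 := by ring
      _ ≤ _ := mul_le_mul_of_nonneg_left h3 (pow_nonneg hlZ m)
  have hsub : IN F M ⊆ IN F Z := by
    intro I hI
    obtain ⟨hI1, hI0⟩ := (mem_IN (by linarith)).1 hI
    exact (mem_IN (by linarith)).2 ⟨hI1.trans hMZ, hI0⟩
  calc ‖∑ I ∈ IN F M, χ.χ I * ((Real.log (M / Ideal.absNorm I) ^ m : ℝ) : ℂ)‖
      ≤ ∑ I ∈ IN F M, ‖χ.χ I * ((Real.log (M / Ideal.absNorm I) ^ m : ℝ) : ℂ)‖ := norm_sum_le _ _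
    _ ≤ ∑ I ∈ IN F M, Real.log Z ^ m * (Z * (1 / Ideal.absNorm I)) := Finset.sum_le_sum hterm
    _ ≤ ∑ I ∈ IN F Z, Real.log Z ^ m * (Z * (1 / Ideal.absNorm I)) :=
        Finset.sum_le_sum_of_subset_of_nonneg hsub fun I _ _ => by positivity
    _ = Real.log Z ^ m * (Z * ∑ I ∈ IN F Z, (1 : ℝ) / Ideal.absNorm I) := by
        rw [Finset.mul_sum, Finset.mul_sum]
    _ ≤ Real.log Z ^ m * (Z * (C₂ * Real.log Z ^ n)) := by
        refine mul_le_mul_of_nonneg_left ?_ (pow_nonneg hlZ m)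
        exact mul_le_mul_of_nonneg_left (h2 Z hZ) (by linarith)
    _ ≤ Z ^ m * (Z * (C₂ * Z ^ n)) := by
        have e1 : Real.log Z ^ m ≤ Z ^ m := pow_le_pow_left₀ hlZ hlZ' m
        have e2 : Real.log Z ^ n ≤ Z ^ n := pow_le_pow_left₀ hlZ hlZ' n
        have hZ0 : 0 ≤ Z := by linarith
        gcongr
    _ = C₂ * Z ^ (m + n + 1) := by ring

/-- every ideal is in exactly one of the classes -/
private theorem asm_cls {F : Type} [Field F] [NumberField F] {h : ℕ} (s : Fin h → Ideal (𝓞 F))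
    (hr : ∀ I : Ideal (𝓞 F), I ≠ ⊥ → ∃! j, (I * s j).IsPrincipal) {M : ℝ} (hM : 1 ≤ M)
    (f : Ideal (𝓞 F) → ℂ) : ∑ j, ∑ I ∈ cls (s j) M, f I = ∑ I ∈ IN F M, f I := by
  have h1 : ∀ j, ∑ I ∈ cls (s j) M, f I = ∑ I ∈ IN F M, if (I * s j).IsPrincipal then f I else 0 := by
    intro j
    unfold cls
    rw [Finset.sum_filter]
  rw [Finset.sum_congr rfl fun j _ => h1 j, Finset.sum_comm]
  refine Finset.sum_congr rfl fun I hI => ?_
  obtain ⟨j, hj, hu⟩ := hr I ((mem_IN (by linarith)).1 hI).2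
  rw [Finset.sum_eq_single j]
  · rw [if_pos hj]
  · intro i _ hi
    rw [if_neg fun h' => hi (hu i h')]
  · intro h'
    exact (h' (Finset.mem_univ j)).elim

/-- the bound for one `y` -/
private theorem asm_point {n m : ℕ} {C₁ : ℝ} {A₁ : ℕ} {F : Type} [Field F] [NumberField F] (hF : TD F n m)
    {𝔣 : Ideal (𝓞 F)} (h𝔣 : 𝔣 ≠ ⊥) (χ : RC F 𝔣)
    (h1 : ∀ 𝔫 : Ideal (𝓞 F), 𝔫 ≠ ⊥ → ∀ t : InfinitePlace F → ℝ, (∀ w, 0 < t w) →
      ∀ θ : ℝ, 0 < θ → θ ≤ 1 → C₁ * dd F ^ A₁ * (Ideal.absNorm 𝔫 * Ideal.absNorm 𝔣) ≤ θ ^ n * PG F t →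
        ‖(∑ α ∈ bxf 𝔫 t, fj χ 𝔫 α) * ((Ideal.absNorm 𝔫 * Ideal.absNorm 𝔣 * Real.sqrt (dd F) : ℝ) : ℂ) -
          Mres χ 𝔫 * ((kpg n m * PG F t : ℝ) : ℂ)‖ ≤ C₁ * (Ideal.absNorm 𝔣 * (θ * PG F t)))
    (hχ : χ.Non) {h : ℕ} (s : Fin h → Ideal (𝓞 F)) (hs : ∀ j, s j ≠ ⊥)
    (hr : ∀ I : Ideal (𝓞 F), I ≠ ⊥ → ∃! j, (I * s j).IsPrincipal) {M θ : ℝ} (hM : 0 < M) (hθ0 : 0 < θ)
    (hθ1 : θ ≤ 1) (hθ : C₁ * dd F ^ A₁ * Ideal.absNorm 𝔣 ≤ θ ^ n * M) (y : logSpace F) :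
    ‖∑ j, ∑ α ∈ bxf (s j) (radg y (Real.log M + Real.log (Ideal.absNorm (s j)))), fj χ (s j) α‖ ≤
      h * (C₁ * (θ * M)) := by
  have hf := asm_pos h𝔣
  have hd : 1 ≤ Real.sqrt (dd F) := Real.one_le_sqrt.2 (one_le_dd F)
  have hW : 0 ≤ (Ideal.absNorm 𝔣 : ℝ) * Real.sqrt (dd F) := by positivity
  set S : Fin h → ℂ := fun j =>
    ∑ α ∈ bxf (s j) (radg y (Real.log M + Real.log (Ideal.absNorm (s j)))), fj χ (s j) α with hS
  have hone : ∀ j, ‖S j * ((Ideal.absNorm 𝔣 * Real.sqrt (dd F) : ℝ) : ℂ) -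
      Mres χ (s j) * ((kpg n m * M : ℝ) : ℂ)‖ ≤ C₁ * (Ideal.absNorm 𝔣 * (θ * M)) := by
    intro j
    have hN := asm_pos (hs j)
    have hN0 : (0 : ℝ) < Ideal.absNorm (s j) := by linarith
    have hP : PG F (radg y (Real.log M + Real.log (Ideal.absNorm (s j)))) = M * Ideal.absNorm (s j) := by
      rw [rad_prod, Real.exp_add, Real.exp_log hM, Real.exp_log hN0]
    have h3 := h1 (s j) (hs j) (radg y (Real.log M + Real.log (Ideal.absNorm (s j))))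
      (fun w => rad_pos _ _ _) θ hθ0 hθ1 (by
        rw [hP]
        calc C₁ * dd F ^ A₁ * (Ideal.absNorm (s j) * Ideal.absNorm 𝔣) =
              C₁ * dd F ^ A₁ * Ideal.absNorm 𝔣 * Ideal.absNorm (s j) := by ring
          _ ≤ θ ^ n * M * Ideal.absNorm (s j) := mul_le_mul_of_nonneg_right hθ hN0.le
          _ = θ ^ n * (M * Ideal.absNorm (s j)) := by ring)
    rw [hP] at h3
    have h4 : (∑ α ∈ bxf (s j) (radg y (Real.log M + Real.log (Ideal.absNorm (s j)))), fj χ (s j) α) *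
        ((Ideal.absNorm (s j) * Ideal.absNorm 𝔣 * Real.sqrt (dd F) : ℝ) : ℂ) -
          Mres χ (s j) * ((kpg n m * (M * Ideal.absNorm (s j)) : ℝ) : ℂ) =
        (S j * ((Ideal.absNorm 𝔣 * Real.sqrt (dd F) : ℝ) : ℂ) -
          Mres χ (s j) * ((kpg n m * M : ℝ) : ℂ)) * ((Ideal.absNorm (s j) : ℝ) : ℂ) := by
      rw [hS]
      push_cast
      ring
    rw [h4, norm_mul, Complex.norm_real, Real.norm_eq_abs, abs_of_pos hN0] at h3
    refine le_of_mul_le_mul_right (h3.trans (le_of_eq ?_)) hN0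
    ring
  have hsum : (∑ j, S j) * ((Ideal.absNorm 𝔣 * Real.sqrt (dd F) : ℝ) : ℂ) =
      ∑ j, (S j * ((Ideal.absNorm 𝔣 * Real.sqrt (dd F) : ℝ) : ℂ) -
        Mres χ (s j) * ((kpg n m * M : ℝ) : ℂ)) := by
    rw [Finset.sum_sub_distrib, ← Finset.sum_mul, ← Finset.sum_mul, orth_non h𝔣 χ hχ s hs hr, zero_mul,
      sub_zero]
  have h5 : ‖∑ j, S j‖ * (Ideal.absNorm 𝔣 * Real.sqrt (dd F)) ≤
      h * (C₁ * (Ideal.absNorm 𝔣 * (θ * M))) := by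
    have h6 : ‖∑ j, S j‖ * (Ideal.absNorm 𝔣 * Real.sqrt (dd F)) =
        ‖(∑ j, S j) * ((Ideal.absNorm 𝔣 * Real.sqrt (dd F) : ℝ) : ℂ)‖ := by
      rw [norm_mul, Complex.norm_real, Real.norm_eq_abs, abs_of_nonneg hW]
    rw [h6, hsum]
    refine (norm_sum_le _ _).trans ((Finset.sum_le_sum fun j _ => hone j).trans (le_of_eq ?_))
    rw [Finset.sum_const, Finset.card_univ, Fintype.card_fin, nsmul_eq_mul]
  have hf0 : (0 : ℝ) < Ideal.absNorm 𝔣 := by linarith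
  refine le_of_mul_le_mul_right ?_ hf0
  calc ‖∑ j, S j‖ * Ideal.absNorm 𝔣 ≤ ‖∑ j, S j‖ * (Ideal.absNorm 𝔣 * Real.sqrt (dd F)) := by
        refine mul_le_mul_of_nonneg_left ?_ (norm_nonneg _)
        exact le_mul_of_one_le_right hf0.le hd
    _ ≤ h * (C₁ * (Ideal.absNorm 𝔣 * (θ * M))) := h5
    _ = h * (C₁ * (θ * M)) * Ideal.absNorm 𝔣 := by ring

/-- the bound for large `M` -/
private theorem asm_large {n m : ℕ} {C₁ C₃ : ℝ} {A₁ A₃ : ℕ} {F : Type} [Field F] [NumberField F] (hF : TD F n m)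
    (hC₁ : 0 ≤ C₁) {𝔣 : Ideal (𝓞 F)} (h𝔣 : 𝔣 ≠ ⊥) (χ : RC F 𝔣)
    (h1 : ∀ 𝔫 : Ideal (𝓞 F), 𝔫 ≠ ⊥ → ∀ t : InfinitePlace F → ℝ, (∀ w, 0 < t w) →
      ∀ θ : ℝ, 0 < θ → θ ≤ 1 → C₁ * dd F ^ A₁ * (Ideal.absNorm 𝔫 * Ideal.absNorm 𝔣) ≤ θ ^ n * PG F t →
        ‖(∑ α ∈ bxf 𝔫 t, fj χ 𝔫 α) * ((Ideal.absNorm 𝔫 * Ideal.absNorm 𝔣 * Real.sqrt (dd F) : ℝ) : ℂ) -
          Mres χ 𝔫 * ((kpg n m * PG F t : ℝ) : ℂ)‖ ≤ C₁ * (Ideal.absNorm 𝔣 * (θ * PG F t)))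
    (h3 : ∀ (h : ℕ) (s : Fin h → Ideal (𝓞 F)), Reps F h s → (h : ℝ) * vDU F ≤ C₃ * dd F ^ A₃ * torsionOrder F)
    (hχ : χ.Non) {M θ : ℝ} (hM : 1 ≤ M) (hθ0 : 0 < θ)
    (hθ1 : θ ≤ 1) (hθ : C₁ * dd F ^ A₁ * Ideal.absNorm 𝔣 ≤ θ ^ n * M) :
    ‖∑ I ∈ IN F M, χ.χ I * ((Real.log (M / Ideal.absNorm I) ^ (m) : ℝ) : ℂ)‖ * smp (m) ≤
      C₃ * dd F ^ A₃ * (C₁ * (θ * M)) := by
  have hM0 : 0 < M := by linarith
  have hlrk : lrk F = m := by
    exact hF.2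
  obtain ⟨h, s, hh, hs, hr⟩ := H63.MA.exists_reps F
  have hreps : Reps F h s := ⟨hh, hs, hr⟩
  set w : ℝ := (torsionOrder F : ℝ) with hw
  have hw0 : 0 < w := by
    rw [hw]
    have : 0 < torsionOrder F := torsionOrder_pos F
    exact_mod_cast this
  set f : Ideal (𝓞 F) → ℂ := fun I =>
    χ.χ I * ((Real.log (M / Ideal.absNorm I) ^ (m) : ℝ) : ℂ) with hf
  have hint : ∀ j, ∫ y in DU F, ∑ α ∈ bxf (s j) (radg y (Real.log M + Real.log (Ideal.absNorm (s j)))),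
      fj χ (s j) α = (w : ℂ) * ((smp (m) : ℝ) : ℂ) * ∑ I ∈ cls (s j) M, f I := by
    intro j
    have hN0 : (0 : ℝ) < Ideal.absNorm (s j) := by
      have := asm_pos (hs j)
      linarith
    have e1 : ∀ y : logSpace F, ∑ α ∈ bxf (s j) (radg y (Real.log M + Real.log (Ideal.absNorm (s j)))),
        fj χ (s j) α = ∑ α ∈ bxf (s j) (radg y (Real.log M + Real.log (Ideal.absNorm (s j)))),
        χ.χ (qt (s j) α) := fun y =>
      Finset.sum_congr rfl fun α hα => fj_qt χ (hs j) (mem_bxf.1 hα).1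
    simp only [e1]
    rw [un2 (s j) (hs j) _ (fun I => χ.χ I)]
    have e2 : Real.exp (Real.log M + Real.log (Ideal.absNorm (s j))) / Ideal.absNorm (s j) = M := by
      rw [Real.exp_add, Real.exp_log hM0, Real.exp_log hN0, mul_div_assoc, div_self hN0.ne', mul_one]
    rw [e2, hlrk, mul_assoc, Finset.mul_sum (cls (s j) M) _ ((smp (m) : ℝ) : ℂ)]
    have e3 : (torsionOrder F : ℂ) = (w : ℂ) := by
      rw [hw]
      push_cast
      rfl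
    rw [e3]
    congr 1
    refine Finset.sum_congr rfl fun I hI => ?_
    have hI0 : I ≠ ⊥ := by
      unfold cls at hI
      exact ((mem_IN hM0.le).1 (Finset.mem_filter.1 hI).1).2
    have hNI : (0 : ℝ) < Ideal.absNorm I := by
      have := asm_pos hI0
      linarith
    have e4 : Real.log M + Real.log (Ideal.absNorm (s j)) - Real.log (Ideal.absNorm (s j)) -
        Real.log (Ideal.absNorm I) = Real.log (M / Ideal.absNorm I) := by
      rw [Real.log_div hM0.ne' hNI.ne']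
      ring
    rw [e4, hf]
    push_cast
    ring
  have hI : ∀ j, IntegrableOn (fun y : logSpace F =>
      ∑ α ∈ bxf (s j) (radg y (Real.log M + Real.log (Ideal.absNorm (s j)))), fj χ (s j) α) (DU F) := by
    intro j
    have h5 := un2_int (s j) (hs j) (Real.log M + Real.log (Ideal.absNorm (s j))) (fun I => χ.χ I)
    refine h5.congr_fun (fun y _ => ?_) DU_meas
    exact Finset.sum_congr rfl fun α hα => (fj_qt χ (hs j) (mem_bxf.1 hα).1).symm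
  have hsum : ∫ y in DU F, ∑ j, ∑ α ∈ bxf (s j) (radg y (Real.log M + Real.log (Ideal.absNorm (s j)))),
      fj χ (s j) α = (w : ℂ) * ((smp (m) : ℝ) : ℂ) * ∑ I ∈ IN F M, f I := by
    rw [integral_finset_sum _ fun j _ => hI j, Finset.sum_congr rfl fun j _ => hint j, ← Finset.mul_sum,
      asm_cls s hr hM f]
  have hbd := norm_setIntegral_le_of_norm_le_const (μ := volume) (s := DU F)
    (f := fun y : logSpace F => ∑ j, ∑ α ∈ bxf (s j) (radg y (Real.log M + Real.log (Ideal.absNorm (s j)))),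
      fj χ (s j) α) (C := h * (C₁ * (θ * M))) (lt_top_iff_ne_top.2 DU_fin)
    (fun y _ => asm_point hF h𝔣 χ h1 hχ s hs hr hM0 hθ0 hθ1 hθ y)
  have hσ := smp_pos (m)
  rw [hsum, norm_mul, norm_mul, Complex.norm_real, Complex.norm_real, Real.norm_eq_abs, Real.norm_eq_abs,
    abs_of_pos hw0, abs_of_pos hσ] at hbd
  have hv : (volume : Measure (logSpace F)).real (DU F) = vDU F := rfl
  rw [hv] at hbd
  have h6 := h3 h s hreps
  have h7 : 0 ≤ C₁ * (θ * M) := by positivity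
  refine le_of_mul_le_mul_left ?_ hw0
  calc w * (‖∑ I ∈ IN F M, f I‖ * smp (m)) = w * smp (m) * ‖∑ I ∈ IN F M, f I‖ := by ring
    _ ≤ h * (C₁ * (θ * M)) * vDU F := hbd
    _ = (h * vDU F) * (C₁ * (θ * M)) := by ring
    _ ≤ (C₃ * dd F ^ A₃ * w) * (C₁ * (θ * M)) := mul_le_mul_of_nonneg_right h6 h7
    _ = w * (C₃ * dd F ^ A₃ * (C₁ * (θ * M))) := by ring

theorem asm (n m : ℕ) (hn : 0 < n) : ∃ C : ℝ, 1 ≤ C ∧ ∃ A : ℕ, ∀ (F : Type) [Field F] [NumberField F], TD F n m →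
    ∀ 𝔣 : Ideal (𝓞 F), 𝔣 ≠ ⊥ → ∀ χ : RC F 𝔣, χ.Non → ∀ M : ℝ, 1 ≤ M →
      ‖∑ I ∈ IN F M, χ.χ I * ((Real.log (M / Ideal.absNorm I) ^ (m) : ℝ) : ℂ)‖ ≤
        C * (dd F * Ideal.absNorm 𝔣) ^ A * M ^ (1 - 1 / (n : ℝ)) := by
  obtain ⟨C₁, hC₁, A₁, h1⟩ := sch n m hn
  obtain ⟨C₂, hC₂, h2⟩ := har n hn
  obtain ⟨C₃, hC₃, A₃, h3⟩ := hrb n m hn
  have hσ := smp_pos m
  obtain ⟨E₁, hE₁⟩ : ∃ E₁ : ℝ, E₁ = C₂ * (2 * C₁) ^ (m + n + 1) := ⟨_, rfl⟩
  obtain ⟨E₂, hE₂⟩ : ∃ E₂ : ℝ, E₂ = C₃ * C₁ ^ 2 / smp m := ⟨_, rfl⟩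
  have hE₁0 : 0 ≤ E₁ := by rw [hE₁]; positivity
  have hE₂0 : 0 ≤ E₂ := by rw [hE₂]; positivity
  refine ⟨1 + E₁ + E₂, by linarith, (A₁ + 1) * (m + n + 1) + A₃, ?_⟩
  intro F _ _ hF 𝔣 h𝔣 χ hχ M hM
  obtain ⟨d, hd⟩ : ∃ d : ℝ, d = dd F := ⟨_, rfl⟩
  obtain ⟨N, hN⟩ : ∃ N : ℝ, N = Ideal.absNorm 𝔣 := ⟨_, rfl⟩
  have hd1 : 1 ≤ d := by rw [hd]; exact one_le_dd F
  have hN1 : 1 ≤ N := by rw [hN]; exact asm_pos h𝔣
  have hdN : 1 ≤ d * N := by nlinarith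
  have hddN : d ≤ d * N := le_mul_of_one_le_right (by linarith) hN1
  have hNdN : N ≤ d * N := le_mul_of_one_le_left (by linarith) hd1
  have hK : C₁ * d ^ A₁ * N ≤ C₁ * (d * N) ^ (A₁ + 1) := by
    calc C₁ * d ^ A₁ * N = C₁ * (d ^ A₁ * N) := by ring
      _ ≤ C₁ * ((d * N) ^ A₁ * (d * N)) := by
          refine mul_le_mul_of_nonneg_left ?_ (by linarith)
          exact mul_le_mul (pow_le_pow_left₀ (by linarith) hddN _) hNdN (by linarith) (by positivity)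
      _ = C₁ * (d * N) ^ (A₁ + 1) := by rw [pow_succ]
  obtain ⟨K, hKe⟩ : ∃ K : ℝ, K = C₁ * d ^ A₁ * N := ⟨_, rfl⟩
  have hK1 : 1 ≤ K := by
    rw [hKe]
    have a1 : 1 ≤ d ^ A₁ := one_le_pow₀ hd1
    have a2 : 1 ≤ C₁ * d ^ A₁ := by nlinarith
    nlinarith
  rw [← hKe] at hK
  have he := asm_exp hn
  have hMp : 1 ≤ M ^ (1 - 1 / (n : ℝ)) := Real.one_le_rpow hM he
  obtain ⟨P, hP⟩ : ∃ P : ℝ, P = M ^ (1 - 1 / (n : ℝ)) := ⟨_, rfl⟩
  obtain ⟨Q, hQ⟩ : ∃ Q : ℝ, Q = (d * N) ^ ((A₁ + 1) * (m + n + 1) + A₃) := ⟨_, rfl⟩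
  rw [← hd, ← hN, ← hP, ← hQ]
  rw [← hP] at hMp
  have hQ1 : 1 ≤ Q := by
    rw [hQ]
    exact one_le_pow₀ hdN
  by_cases hMK : M < 2 * K
  · have h4 := asm_small (m := m) (n := n) (C₂ := C₂) (h2 F hF.1) χ hM (show 2 ≤ 2 * K by linarith) hMK.le
    refine h4.trans ?_
    calc C₂ * (2 * K) ^ (m + n + 1) ≤ C₂ * (2 * (C₁ * (d * N) ^ (A₁ + 1))) ^ (m + n + 1) := by
          refine mul_le_mul_of_nonneg_left (pow_le_pow_left₀ (by linarith) ?_ _) (by linarith)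
          linarith
      _ = E₁ * (d * N) ^ ((A₁ + 1) * (m + n + 1)) := by
          rw [hE₁, ← mul_assoc, mul_pow, pow_mul]
          ring
      _ ≤ E₁ * Q := by
          refine mul_le_mul_of_nonneg_left ?_ hE₁0
          rw [hQ]
          exact pow_le_pow_right₀ hdN (by omega)
      _ ≤ (1 + E₁ + E₂) * Q := mul_le_mul_of_nonneg_right (by linarith) (by linarith)
      _ ≤ (1 + E₁ + E₂) * Q * P := le_mul_of_one_le_right (by positivity) hMp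
  · have hMK' : 2 * K ≤ M := not_lt.1 hMK
    have hM0 : 0 < M := by linarith
    have hK0 : 0 < K := by linarith
    have hKM0 : 0 < K / M := by positivity
    have hKM1 : K / M ≤ 1 := by
      rw [div_le_one hM0]
      linarith
    obtain ⟨θ, hθ⟩ : ∃ θ : ℝ, θ = (K / M) ^ (1 / (n : ℝ)) := ⟨_, rfl⟩
    have hn0 : (0 : ℝ) < n := by exact_mod_cast hn
    have hθ0 : 0 < θ := by
      rw [hθ]
      exact Real.rpow_pos_of_pos hKM0 _
    have hθ1 : θ ≤ 1 := by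
      rw [hθ]
      exact Real.rpow_le_one hKM0.le hKM1 (by positivity)
    have hθn : θ ^ n = K / M := by
      rw [hθ, ← Real.rpow_natCast, ← Real.rpow_mul hKM0.le, one_div, inv_mul_cancel₀ hn0.ne', Real.rpow_one]
    have h4 := asm_large (n := n) (C₁ := C₁) (C₃ := C₃) (A₁ := A₁) (A₃ := A₃) hF (by linarith) h𝔣 χ
      (h1 F hF 𝔣 h𝔣 χ) (h3 F hF) hχ hM hθ0 hθ1 (by
        rw [hθn, ← hd, ← hN, ← hKe, div_mul_cancel₀ _ hM0.ne'])
    rw [← hd] at h4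
    -- `θ M = K^(1/n) M^(1-1/n)`
    have hθM : θ * M ≤ K * P := by
      rw [hθ, hP, Real.div_rpow hK0.le hM0.le]
      have h5 : M ^ (1 - 1 / (n : ℝ)) = M / M ^ (1 / (n : ℝ)) := by
        rw [Real.rpow_sub hM0, Real.rpow_one]
      rw [h5]
      have h6 : K ^ (1 / (n : ℝ)) ≤ K := by
        calc K ^ (1 / (n : ℝ)) ≤ K ^ (1 : ℝ) := Real.rpow_le_rpow_of_exponent_le hK1 (by
              rw [div_le_one hn0]
              exact_mod_cast hn)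
          _ = K := Real.rpow_one K
      have h7 : 0 < M ^ (1 / (n : ℝ)) := Real.rpow_pos_of_pos hM0 _
      calc K ^ (1 / (n : ℝ)) / M ^ (1 / (n : ℝ)) * M = K ^ (1 / (n : ℝ)) * (M / M ^ (1 / (n : ℝ))) := by
            field_simp
        _ ≤ K * (M / M ^ (1 / (n : ℝ))) := mul_le_mul_of_nonneg_right h6 (by positivity)
    rw [← le_div_iff₀ hσ] at h4
    refine h4.trans ?_
    calc C₃ * d ^ A₃ * (C₁ * (θ * M)) / smp m ≤ C₃ * d ^ A₃ * (C₁ * (K * P)) / smp m := by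
          gcongr
      _ ≤ C₃ * (d * N) ^ A₃ * (C₁ * (C₁ * (d * N) ^ (A₁ + 1) * P)) / smp m := by
          have hP0 : 0 ≤ P := by linarith
          gcongr
      _ = E₂ * (d * N) ^ (A₁ + 1 + A₃) * P := by
          rw [hE₂]
          field_simp
          ring
      _ ≤ E₂ * Q * P := by
          refine mul_le_mul_of_nonneg_right (mul_le_mul_of_nonneg_left ?_ hE₂0) (by linarith)
          rw [hQ]
          refine pow_le_pow_right₀ hdN ?_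
          have : A₁ + 1 ≤ (A₁ + 1) * (m + n + 1) := Nat.le_mul_of_pos_right _ (by omega)
          omega
      _ ≤ (1 + E₁ + E₂) * Q * P := by
          refine mul_le_mul_of_nonneg_right (mul_le_mul_of_nonneg_right (by linarith) (by linarith))
            (by linarith)

end H1.GS
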