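import Pool.Agent.H1.LS4.Hyp
import Pool.Agent.H57.LI.Defs
import Pool.Agent.H57.TLS.Har
import Pool.Agent.H67.AQ.Defs

/-!
# [H1 GS CVA] Convolutions, any signature

As H1/LS4/Cva.
-/

set_option autoImplicit false

open scoped NumberField Classical
open NumberField H63.MA H36.QA H1.LS4

noncomputable section

namespace H1.GS

section

variable {F : Type} [Field F] [NumberField F]

private theorem cva_mem {x : ℝ} {I : Ideal (𝓞 F)} : I ∈ IN F x ↔ Ideal.absNorm I ≤ ⌊x⌋₊ ∧ I ≠ ⊥ := by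
  unfold IN
  rw [Finset.mem_filter, Set.Finite.mem_toFinset]
  rfl

private theorem cva_pos {I : Ideal (𝓞 F)} (hI : I ≠ ⊥) : 1 ≤ Ideal.absNorm I :=
  Nat.one_le_iff_ne_zero.2 fun h => hI (Ideal.absNorm_eq_zero_iff.1 h)

private theorem cva_fib {β : Type} [AddCommMonoid β] (g : Ideal (𝓞 F) → β) (x : ℝ) :
    ∑ m ∈ Finset.Icc 1 ⌊x⌋₊, ∑ I ∈ (IN F (m : ℝ)).filter (fun I => Ideal.absNorm I = m), g I =
      ∑ I ∈ IN F x, g I := by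
  rw [← Finset.sum_fiberwise_of_maps_to (s := IN F x) (g := fun I => Ideal.absNorm I)
    (t := Finset.Icc 1 ⌊x⌋₊)]
  · refine Finset.sum_congr rfl fun m hm => Finset.sum_congr ?_ fun _ _ => rfl
    ext I
    rw [Finset.mem_filter, Finset.mem_filter, cva_mem, cva_mem, Nat.floor_natCast]
    have hm2 := (Finset.mem_Icc.1 hm).2
    constructor
    · rintro ⟨⟨h1, h2⟩, h3⟩
      exact ⟨⟨h1.trans hm2, h2⟩, h3⟩
    · rintro ⟨⟨h1, h2⟩, h3⟩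
      exact ⟨⟨h3.le, h2⟩, h3⟩
  · intro I hI
    rw [cva_mem] at hI
    exact Finset.mem_Icc.2 ⟨cva_pos hI.2, hI.1⟩

/-- the coefficients -/
private def cva_a (ψ : Ideal (𝓞 F) →*₀ ℂ) (m : ℕ) : ℂ :=
  ∑ I ∈ (IN F (m : ℝ)).filter (fun I => Ideal.absNorm I = m), ψ I

private theorem cva_psum (ψ : Ideal (𝓞 F) →*₀ ℂ) (x : ℝ) : psum (cva_a ψ) x = ∑ I ∈ IN F x, ψ I :=
  cva_fib (fun I => ψ I) x

private theorem cva_norm {𝔣 : Ideal (𝓞 F)} (χ : RC F 𝔣) {I : Ideal (𝓞 F)} (hI : I ≠ ⊥) :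
    ‖χ.χ I‖ ≤ 1 := by
  by_cases h : IsCoprime I 𝔣
  · rw [χ.norm_one I hI h]
  · rw [χ.zero_of I h, norm_zero]
    exact zero_le_one

private theorem cva_har_le {𝔣 : Ideal (𝓞 F)} (χ : RC F 𝔣) (x : ℝ) :
    ∑ m ∈ Finset.Icc 1 ⌊x⌋₊, ‖cva_a χ.χ m‖ / m ≤ ∑ I ∈ IN F x, (1 : ℝ) / Ideal.absNorm I := by
  rw [← cva_fib (fun I => (1 : ℝ) / Ideal.absNorm I) x]
  refine Finset.sum_le_sum fun m hm => ?_
  have hm0 : (0 : ℝ) < m := by exact_mod_cast (Finset.mem_Icc.1 hm).1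
  unfold cva_a
  rw [div_le_iff₀ hm0, Finset.sum_mul]
  refine norm_sum_le_of_le _ fun I hI => ?_
  rw [Finset.mem_filter, cva_mem] at hI
  rw [hI.2, div_mul_cancel₀ _ hm0.ne']
  exact cva_norm χ hI.1.2

/-- partial sums of a Dirichlet convolution -/
private theorem cva_dcv (a b : ℕ → ℂ) (K : ℕ) :
    ∑ N ∈ Finset.Icc 1 K, dcv a b N =
      ∑ d ∈ Finset.Icc 1 K, ∑ m ∈ Finset.Icc 1 (K / d), a d * b m := by
  unfold dcv
  rw [Finset.sum_sigma', Finset.sum_sigma']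
  refine Finset.sum_bij' (fun p _ => ⟨p.2, p.1 / p.2⟩) (fun p _ => ⟨p.1 * p.2, p.1⟩) ?_ ?_ ?_ ?_ ?_
  · rintro ⟨N, d⟩ h
    simp only [Finset.mem_sigma, Finset.mem_Icc, Nat.mem_divisors] at h ⊢
    obtain ⟨⟨h1, h2⟩, h3, h4⟩ := h
    have h5 : 0 < d := Nat.pos_of_dvd_of_pos h3 (by omega)
    have h6 : d ≤ N := Nat.le_of_dvd (by omega) h3
    exact ⟨⟨h5, h6.trans h2⟩, Nat.div_pos h6 h5, Nat.div_le_div_right h2⟩
  · rintro ⟨d, m⟩ h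
    simp only [Finset.mem_sigma, Finset.mem_Icc, Nat.mem_divisors] at h ⊢
    obtain ⟨⟨h1, h2⟩, h3, h4⟩ := h
    have h5 : d * m ≤ K := (Nat.mul_le_mul_left d h4).trans (Nat.mul_div_le K d)
    have h6 : 1 ≤ d * m := Nat.mul_pos h1 h3
    exact ⟨⟨h6, h5⟩, Nat.dvd_mul_right d m, by omega⟩
  · rintro ⟨N, d⟩ h
    simp only [Finset.mem_sigma, Finset.mem_Icc, Nat.mem_divisors] at h ⊢
    rw [Nat.mul_div_cancel' h.2.1]
  · rintro ⟨d, m⟩ h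
    simp only [Finset.mem_sigma, Finset.mem_Icc] at h ⊢
    rw [Nat.mul_div_cancel_left m (by omega)]
  · rintro ⟨N, d⟩ h
    rfl

private theorem cva_cnv (ψ : Ideal (𝓞 F) →*₀ ℂ) (b : ℕ → ℂ) (M : ℝ) :
    cnv ∅ ψ (psum b) M = psum (dcv (cva_a ψ) b) M := by
  unfold cnv
  have h0 : (IN F M).filter (fun I => ∀ v ∈ (∅ : Finset (Pl F)), ¬ v.asIdeal ∣ I) = IN F M :=
    Finset.filter_true_of_mem fun I _ v hv => absurd hv (Finset.notMem_empty v)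
  rw [h0, ← cva_fib (fun I => ψ I * psum b (M / Ideal.absNorm I)) M]
  show _ = ∑ N ∈ Finset.Icc 1 ⌊M⌋₊, dcv (cva_a ψ) b N
  rw [cva_dcv]
  refine Finset.sum_congr rfl fun d _ => ?_
  rw [← Finset.mul_sum]
  unfold cva_a
  rw [Finset.sum_mul]
  refine Finset.sum_congr rfl fun I hI => ?_
  rw [(Finset.mem_filter.1 hI).2]
  unfold psum
  rw [Nat.floor_div_natCast]

/-- the sequence which is `1` at `1` -/
private def cva_one (m : ℕ) : ℂ := if m = 1 then 1 else 0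

private theorem cva_e1 : e1 = psum cva_one := by
  funext M
  unfold e1 psum cva_one
  rw [Finset.sum_ite_eq' (Finset.Icc 1 ⌊M⌋₊) 1 (fun _ => (1 : ℂ))]
  have h1 : (1 ∈ Finset.Icc 1 ⌊M⌋₊) ↔ 1 ≤ M := by
    rw [Finset.mem_Icc]
    have h2 : 1 ≤ ⌊M⌋₊ ↔ 1 ≤ M := Nat.floor_pos
    rw [h2]
    exact ⟨fun h => h.2, fun h => ⟨le_rfl, h⟩⟩
  by_cases h : 1 ≤ M
  · rw [if_pos h, if_pos (h1.2 h)]
  · rw [if_neg h, if_neg fun h' => h (h1.1 h')]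

private theorem cva_dcv_one (a : ℕ → ℂ) {m : ℕ} (hm : 1 ≤ m) : dcv a cva_one m = a m := by
  unfold dcv cva_one
  rw [Finset.sum_eq_single m]
  · rw [Nat.div_self hm, if_pos rfl, mul_one]
  · intro d hd hdm
    rw [if_neg, mul_zero]
    intro h
    obtain ⟨⟨c, hc⟩, hm0⟩ := Nat.mem_divisors.1 hd
    have hd0 : 0 < d := by
      rcases Nat.eq_zero_or_pos d with h0 | h0
      · rw [h0, zero_mul] at hc
        exact absurd hc hm0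
      · exact h0
    rw [hc, Nat.mul_div_cancel_left c hd0] at h
    rw [h, mul_one] at hc
    exact hdm hc.symm
  · intro h
    exact absurd (Nat.mem_divisors.2 ⟨dvd_rfl, by omega⟩) h

/-- the coefficients of the iterated sums -/
private def cva_b : List (Ideal (𝓞 F) →*₀ ℂ) → ℕ → ℂ
  | [] => cva_one
  | ψ :: L => dcv (cva_a ψ) (cva_b L)

private theorem cva_cvs (L : List (Ideal (𝓞 F) →*₀ ℂ)) : cvs ∅ L = psum (cva_b L) := by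
  induction L with
  | nil => exact cva_e1
  | cons ψ L ih =>
    funext M
    show cnv ∅ ψ (cvs ∅ L) M = psum (dcv (cva_a ψ) (cva_b L)) M
    rw [ih, cva_cnv]

private theorem cva_gd_congr {a b : ℕ → ℂ} {D G δ : ℝ} {k : ℕ} (h : ∀ m, 1 ≤ m → b m = a m)
    (ha : Gd a D G k δ) : Gd b D G k δ := by
  refine ⟨fun x hx => ?_, fun x hx => ?_⟩
  · have h1 : psum b x = psum a x :=
      Finset.sum_congr rfl fun m hm => h m (Finset.mem_Icc.1 hm).1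
    rw [h1]
    exact ha.1 x hx
  · rw [Finset.sum_congr rfl fun m hm => by rw [h m (Finset.mem_Icc.1 hm).1]]
    exact ha.2 x hx

end

private theorem cva_base (n : ℕ) (hn : 0 < n) (hics : H67.AQ.ICG n) : ∃ (C G : ℝ) (A : ℕ) (δ : ℝ),
    1 ≤ C ∧ 1 ≤ G ∧ 0 < δ ∧ δ ≤ 1 / 4 ∧ ∀ (F : Type) [Field F] [NumberField F], Module.finrank ℚ F = n →
      ∀ 𝔣 : Ideal (𝓞 F), 𝔣 ≠ ⊥ → ∀ ψ : RC F 𝔣, ψ.Non →
        Gd (cva_a ψ.χ) (C * (dd F * Ideal.absNorm 𝔣) ^ A) G n δ := by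
  obtain ⟨C, A, δ, hC, hδ, hδ4, h⟩ := hics
  obtain ⟨G, hG, hhar⟩ := H57.TLS.har n hn
  refine ⟨C, G, A, δ, hC, hG, hδ, hδ4, fun F _ _ hF 𝔣 h𝔣 ψ hψ => ⟨fun x hx => ?_, fun x hx => ?_⟩⟩
  · rw [cva_psum]
    exact h F hF 𝔣 h𝔣 ψ hψ x hx
  · refine (cva_har_le ψ x).trans ?_
    have hlog : 0 ≤ Real.log x := Real.log_nonneg hx
    by_cases h2 : 2 ≤ x
    · refine (hhar F hF x h2).trans ?_
      refine mul_le_mul_of_nonneg_left (pow_le_pow_left₀ hlog (by linarith) n) (by linarith)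
    · have h3 : ∑ I ∈ IN F x, (1 : ℝ) / Ideal.absNorm I ≤
          ∑ I ∈ IN F (2 : ℝ), (1 : ℝ) / Ideal.absNorm I := by
        refine Finset.sum_le_sum_of_subset_of_nonneg ?_ fun I _ _ => by positivity
        intro I hI
        rw [mem_IN (by linarith)] at hI
        rw [mem_IN (by norm_num)]
        exact ⟨hI.1.trans (by linarith), hI.2⟩
      refine h3.trans ((hhar F hF 2 le_rfl).trans ?_)
      have h4 : Real.log 2 ≤ 1 := by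
        have := Real.log_two_lt_d9
        linarith
      have h5 : Real.log 2 ^ n ≤ 1 := pow_le_one₀ (Real.log_nonneg (by norm_num)) h4
      have h6 : (1 : ℝ) ≤ (1 + Real.log x) ^ n := one_le_pow₀ (by linarith)
      exact mul_le_mul_of_nonneg_left (h5.trans h6) (by linarith)

private theorem cva_ind (n : ℕ) (hn : 0 < n) (hics : H67.AQ.ICG n) (k : ℕ) : ∃ (C G : ℝ) (A κ : ℕ) (δ : ℝ),
    1 ≤ C ∧ 1 ≤ G ∧ 0 < δ ∧ δ ≤ 1 / 4 ∧ ∀ (F : Type) [Field F] [NumberField F], Module.finrank ℚ F = n →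
      ∀ 𝔣 : Ideal (𝓞 F), 𝔣 ≠ ⊥ → ∀ L : List (RC F 𝔣), L.length = k + 1 → (∀ ψ ∈ L, ψ.Non) →
        Gd (cva_b (L.map fun ψ => ψ.χ)) (C * (dd F * Ideal.absNorm 𝔣) ^ A) G κ δ := by
  obtain ⟨C₁, G₁, A₁, δ₁, hC₁, hG₁, hδ₁, hδ₁4, h₁⟩ := cva_base n hn hics
  induction k with
  | zero =>
    refine ⟨C₁, G₁, A₁, n, δ₁, hC₁, hG₁, hδ₁, hδ₁4, fun F _ _ hF 𝔣 h𝔣 L hL hN => ?_⟩
    obtain ⟨ψ, rfl⟩ := List.length_eq_one_iff.1 hL
    exact cva_gd_congr (fun m hm => cva_dcv_one _ hm) (h₁ F hF 𝔣 h𝔣 ψ (hN ψ (by simp)))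
  | succ k ih =>
    obtain ⟨C₂, G₂, A₂, κ, δ₂, hC₂, hG₂, hδ₂, hδ₂4, h₂⟩ := ih
    have hδ0 : 0 < min δ₁ δ₂ := lt_min hδ₁ hδ₂
    have hδ4 : min δ₁ δ₂ ≤ 1 / 4 := (min_le_left _ _).trans hδ₁4
    obtain ⟨C, hC, hh⟩ := hyp (n + κ) (min δ₁ δ₂) hδ0 (hδ4.trans (by norm_num))
    have hG0 : 1 ≤ G₁ + G₂ := by linarith
    refine ⟨C * ((C₁ + C₂) ^ 2 * (G₁ + G₂) ^ 2), (G₁ + G₂) ^ 2, 2 * (A₁ + A₂), 2 * (n + κ),
      min δ₁ δ₂ / 3, ?_, one_le_pow₀ hG0, by positivity, by linarith,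
      fun F _ _ hF 𝔣 h𝔣 L hL hN => ?_⟩
    · exact one_le_mul_of_one_le_of_one_le hC (one_le_mul_of_one_le_of_one_le
        (one_le_pow₀ (by linarith)) (one_le_pow₀ hG0))
    · obtain ⟨ψ, L', rfl⟩ : ∃ ψ L', L = ψ :: L' := by
        cases L with
        | nil => simp at hL
        | cons ψ L' => exact ⟨ψ, L', rfl⟩
      have hL' : L'.length = k + 1 := by simpa using hL
      have hx1 : (1 : ℝ) ≤ dd F * Ideal.absNorm 𝔣 := by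
        have h3 : (1 : ℝ) ≤ Ideal.absNorm 𝔣 := by exact_mod_cast cva_pos h𝔣
        exact one_le_mul_of_one_le_of_one_le (one_le_dd F) h3
      obtain ⟨X, hX⟩ : ∃ X : ℝ, X = dd F * Ideal.absNorm 𝔣 := ⟨_, rfl⟩
      rw [← hX] at hx1
      have hp1 : X ^ A₁ ≤ X ^ (A₁ + A₂) := pow_le_pow_right₀ hx1 (by omega)
      have hp2 : X ^ A₂ ≤ X ^ (A₁ + A₂) := pow_le_pow_right₀ hx1 (by omega)
      have hp0 : (1 : ℝ) ≤ X ^ (A₁ + A₂) := one_le_pow₀ hx1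
      have hq1 : (0 : ℝ) ≤ X ^ A₁ := by positivity
      have hq2 : (0 : ℝ) ≤ X ^ A₂ := by positivity
      have g1 : Gd (cva_a ψ.χ) ((C₁ + C₂) * X ^ (A₁ + A₂)) (G₁ + G₂) (n + κ) (min δ₁ δ₂) := by
        have h3 := h₁ F hF 𝔣 h𝔣 ψ (hN ψ (by simp))
        rw [← hX] at h3
        refine Gd_mono h3 (by positivity) (by linarith) ?_ (by linarith) (by omega) (min_le_left _ _)
        nlinarith
      have g2 : Gd (cva_b (L'.map fun ψ => ψ.χ)) ((C₁ + C₂) * X ^ (A₁ + A₂)) (G₁ + G₂) (n + κ)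
          (min δ₁ δ₂) := by
        have h3 := h₂ F hF 𝔣 h𝔣 L' hL' (fun ψ' hψ' => hN ψ' (List.mem_cons_of_mem _ hψ'))
        rw [← hX] at h3
        refine Gd_mono h3 (by positivity) (by linarith) ?_ (by linarith) (by omega) (min_le_right _ _)
        nlinarith
      have g3 := hh _ _ _ _ (one_le_mul_of_one_le_of_one_le (by linarith) hp0) hG0 g1 g2
      rw [← hX]
      have e : C * (((C₁ + C₂) * X ^ (A₁ + A₂)) ^ 2 * (G₁ + G₂) ^ 2) =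
          C * ((C₁ + C₂) ^ 2 * (G₁ + G₂) ^ 2) * X ^ (2 * (A₁ + A₂)) := by
        rw [mul_pow, ← pow_mul, mul_comm (A₁ + A₂) 2]
        ring
      rw [← e]
      exact g3

theorem cva (n : ℕ) (hn : 0 < n) (hics : H67.AQ.ICG n) (k : ℕ) (hk : 1 ≤ k) : ∃ (C : ℝ) (A : ℕ) (δ : ℝ),
    1 ≤ C ∧ 0 < δ ∧ δ ≤ 1 / 4 ∧ ∀ (F : Type) [Field F] [NumberField F], Module.finrank ℚ F = n → ∀ 𝔣 : Ideal (𝓞 F), 𝔣 ≠ ⊥ →
      ∀ L : List (RC F 𝔣), L.length = k → (∀ ψ ∈ L, ψ.Non) → ∀ M : ℝ, 1 ≤ M →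
        ‖cvs ∅ (L.map fun ψ => ψ.χ) M‖ ≤ C * (dd F * Ideal.absNorm 𝔣) ^ A * M ^ (1 - δ) := by
  obtain ⟨k, rfl⟩ : ∃ k', k = k' + 1 := ⟨k - 1, by omega⟩
  obtain ⟨C, G, A, κ, δ, hC, hG, hδ, hδ4, h⟩ := cva_ind n hn hics k
  refine ⟨C, A, δ, hC, hδ, hδ4, fun F _ _ hF 𝔣 h𝔣 L hL hN M hM => ?_⟩
  rw [cva_cvs]
  exact (h F hF 𝔣 h𝔣 L hL hN).1 M hM

end H1.GS
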