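import Pool.Agent.H1.LS4.Smx

/-!
# GS (AQ, chapter LI): ray class character sums in number fields of any signature: definitions (complete)

As H1/LS4 (which treats the totally complex fields). `TD F n m`: `F` has degree `n` and unit rank `m`, so `F` has `2 (m + 1) - n` real
and `n - (m + 1)` complex places. `PG F f = ∏ w, f w ^ w.mult`. `PDg F c f`: the box with centre `c` and radii `f` in the mixed space.
`radg y q`: the radii with `PG F (radg y q) = exp q` which belong to the point `y` of the logarithmic space. `kpg n m` is `2^r₁ (2π)^r₂`.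
-/

set_option autoImplicit false

open scoped NumberField Classical
open NumberField NumberField.Units NumberField.Units.dirichletUnitTheorem H63.MA H36.QA H57.TLS H1.LS4

noncomputable section

namespace H1.GS

/-- the field has degree `n` and unit rank `m` -/
def TD (F : Type) [Field F] [NumberField F] (n m : ℕ) : Prop :=
  Module.finrank ℚ F = n ∧ lrk F = m

/-- the product over the infinite places with multiplicities -/
def PG (F : Type) [Field F] [NumberField F] (f : InfinitePlace F → ℝ) : ℝ := ∏ w, f w ^ w.mult

/-- the box with centre `c` and radii `f` -/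
def PDg (F : Type) [Field F] [NumberField F] (c : mixedEmbedding.mixedSpace F)
    (f : InfinitePlace F → ℝ) : Set (mixedEmbedding.mixedSpace F) :=
  {x | ∀ w, mixedEmbedding.normAtPlace w (x - c) ≤ f w}

/-- `2^r₁ (2π)^r₂` -/
def kpg (n m : ℕ) : ℝ := 2 ^ (2 * (m + 1) - n) * (2 * Real.pi) ^ (n - (m + 1))

variable {F : Type} [Field F] [NumberField F]

/-- the radii which belong to `y` and `q` -/
def radg (y : logSpace F) (q : ℝ) (w : InfinitePlace F) : ℝ :=
  Real.exp ((q / (lrk F + 1) + (if h : w = w₀ then - ∑ v, y v else y ⟨w, h⟩)) / w.mult)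

theorem kpg_pos (n m : ℕ) : 0 < kpg n m := by
  unfold kpg
  have := Real.pi_pos
  positivity

theorem card_eq (F : Type) [Field F] [NumberField F] : Fintype.card (InfinitePlace F) = lrk F + 1 := by
  unfold lrk
  have h := Fintype.sum_eq_add_sum_subtype_ne (fun _ : InfinitePlace F => (1 : ℕ)) w₀
  simp only [Finset.sum_const, Finset.card_univ, smul_eq_mul, mul_one] at h
  rw [h, add_comm]

theorem td_pl {n m : ℕ} (hF : TD F n m) : InfinitePlace.nrRealPlaces F = 2 * (m + 1) - n ∧
    InfinitePlace.nrComplexPlaces F = n - (m + 1) := by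
  have h1 := InfinitePlace.card_eq_nrRealPlaces_add_nrComplexPlaces F
  have h2 := InfinitePlace.card_add_two_mul_card_eq_rank F
  rw [card_eq, hF.2] at h1
  rw [hF.1] at h2
  omega

/-- the unit rank is smaller than the degree -/
theorem td_lt {n m : ℕ} (hF : TD F n m) : m < n := by
  have h1 := InfinitePlace.card_eq_nrRealPlaces_add_nrComplexPlaces F
  have h2 := InfinitePlace.card_add_two_mul_card_eq_rank F
  rw [card_eq, hF.2] at h1
  rw [hF.1] at h2
  omega

omit [NumberField F] in
theorem mult_pos' (w : InfinitePlace F) : (0 : ℝ) < w.mult := by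
  exact_mod_cast InfinitePlace.mult_pos

omit [NumberField F] in
theorem one_le_mult' (w : InfinitePlace F) : (1 : ℝ) ≤ w.mult := by
  exact_mod_cast (InfinitePlace.mult_pos : 0 < w.mult)

theorem PG_const {n m : ℕ} (hF : TD F n m) (c : ℝ) : PG F (fun _ => c) = c ^ n := by
  unfold PG
  rw [Finset.prod_pow_eq_pow_sum, InfinitePlace.sum_mult_eq, hF.1]

theorem PG_mul {n m : ℕ} (hF : TD F n m) (t : InfinitePlace F → ℝ) (c : ℝ) :
    PG F (fun w => c * t w) = c ^ n * PG F t := by
  rw [← PG_const hF c]
  unfold PG
  rw [← Finset.prod_mul_distrib]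
  exact Finset.prod_congr rfl fun w _ => mul_pow _ _ _

theorem PG_pos {t : InfinitePlace F → ℝ} (ht : ∀ w, 0 < t w) : 0 < PG F t :=
  Finset.prod_pos fun w _ => pow_pos (ht w) _

/-- the absolute value of the product over all places is the norm -/
theorem prod_mult_eq_norm (x : 𝓞 F) :
    ∏ w : InfinitePlace F, (w (x : F)) ^ w.mult = Ideal.absNorm (Ideal.span {x}) := by
  have h1 := InfinitePlace.prod_eq_abs_norm (x : F)
  rw [h1, Ideal.absNorm_span_singleton]
  have h3 : Algebra.norm ℚ (x : F) = ((Algebra.norm ℤ x : ℤ) : ℚ) :=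
    (Algebra.coe_norm_int x).symm
  rw [h3]
  push_cast
  rw [Nat.cast_natAbs]
  push_cast
  rfl

end H1.GS
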