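import Pool.Agent.H1.GS.Skc
import Pool.Agent.H1.LS4.Crb

/-!
# [H1 GS SBC] The points of a coset of an ideal in a box with arbitrary radii, uniformly in the field of any signature

As H1/LS4/Sbc.
-/

set_option autoImplicit false

open scoped NumberField Classical
open NumberField NumberField.Units NumberField.Units.dirichletUnitTheorem H63.MA H36.QA H57.TLS MeasureTheory H1.LS4

noncomputable section

namespace H1.GS

private theorem sbc_vol {n m : ℕ} {F : Type} [Field F] [NumberField F] (hF : TD F n m)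
    (t : InfinitePlace F → ℝ) (ht : ∀ w, 0 < t w) (c : ℝ) (hc : 0 ≤ c) :
    MeasurableSet (PDg F 0 (fun w => c * t w)) ∧
      MeasureTheory.volume (PDg F 0 (fun w => c * t w)) =
        ENNReal.ofReal (2 ^ InfinitePlace.nrRealPlaces F * Real.pi ^ InfinitePlace.nrComplexPlaces F *
          (c ^ n * PG F t)) := by
  obtain ⟨h1, h2⟩ := pdg_volume F 0 (fun w => c * t w) (fun w => mul_nonneg hc (ht w).le)
  refine ⟨h1, ?_⟩
  rw [h2, ← PG_mul hF]

private theorem sbc_mem {F : Type} [Field F] [NumberField F]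
    (t : InfinitePlace F → ℝ) (α : 𝓞 F) :
    mixedEmbedding F (α : F) ∈ PDg F 0 t ↔ BxF t α := by
  refine forall_congr' fun w => ?_
  rw [sub_zero, mixedEmbedding.normAtPlace_apply]

theorem sbc (n m : ℕ) (hn : 0 < n) : ∃ C : ℝ, 1 ≤ C ∧ ∃ A : ℕ, ∀ (F : Type) [Field F] [NumberField F], TD F n m →
    ∀ 𝔞 : Ideal (𝓞 F), 𝔞 ≠ ⊥ → ∀ t : InfinitePlace F → ℝ, (∀ w, 0 < t w) → ∀ θ : ℝ, 0 < θ → θ ≤ 1 →
      C * dd F ^ A * Ideal.absNorm 𝔞 ≤ θ ^ n * PG F t → ∀ v : 𝓞 F,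
      |(({α : 𝓞 F | α - v ∈ 𝔞 ∧ BxF t α}.ncard : ℕ) : ℝ) * (Ideal.absNorm 𝔞 * Real.sqrt (dd F)) - kpg n m * PG F t| ≤
        C * (θ * PG F t) := by
  obtain ⟨C₀, hC₀, A, hcov⟩ := skc n m hn
  have hk := kpg_pos n m
  have hK : 0 ≤ kpg n m * (n * 2 ^ n) := by positivity
  refine ⟨C₀ + kpg n m * (n * 2 ^ n), by linarith, A, ?_⟩
  intro F _ _ hF 𝔞 h𝔞 t ht θ hθ hθ1 hbig v
  have hP : 0 < PG F t := PG_pos ht
  obtain ⟨P, hPd⟩ : ∃ P, P = PG F t := ⟨_, rfl⟩
  obtain ⟨r₁, hr₁⟩ : ∃ r, r = InfinitePlace.nrRealPlaces F := ⟨_, rfl⟩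
  obtain ⟨r₂, hr₂⟩ : ∃ r, r = InfinitePlace.nrComplexPlaces F := ⟨_, rfl⟩
  have hddA : 0 ≤ dd F ^ A := pow_nonneg (dd_pos F).le _
  obtain ⟨L, D, hLc, hD, hDvol, hmem⟩ := ideal_lat F 𝔞 h𝔞
  rw [← hr₂] at hDvol
  set B : Set (mixedEmbedding.mixedSpace F) := PDg F 0 (fun w => θ * t w) with hB
  have hRad : ∀ x : mixedEmbedding.mixedSpace F, ∃ l ∈ L, x - l ∈ B := by
    intro x
    obtain ⟨α, hα, hx⟩ := hcov F hF 𝔞 h𝔞 t ht x
    refine ⟨mixedEmbedding F (α : F), (hmem _).2 ⟨α, hα, rfl⟩, fun w => ?_⟩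
    rw [sub_zero]
    have h1 := hx w
    have h0 : 0 ≤ dd F ^ A * Ideal.absNorm 𝔞 := mul_nonneg hddA (Nat.cast_nonneg _)
    have h2 : C₀ * dd F ^ A * Ideal.absNorm 𝔞 ≤ θ ^ n * PG F t := by
      refine le_trans ?_ hbig
      have h3 : 0 ≤ kpg n m * (n * 2 ^ n) * (dd F ^ A * Ideal.absNorm 𝔞) := mul_nonneg hK h0
      linarith
    have h4 : 0 ≤ t w ^ n := (pow_pos (ht w) n).le
    have h5 := h1.trans (mul_le_mul_of_nonneg_right h2 h4)
    have h6 : mixedEmbedding.normAtPlace w (x - mixedEmbedding F (α : F)) ^ n * PG F t ≤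
        (θ * t w) ^ n * PG F t := by
      rw [mul_pow]
      linarith
    have h7 := le_of_mul_le_mul_right h6 hP
    exact le_of_pow_le_pow_left₀ hn.ne' (mul_nonneg hθ.le (ht w).le) h7
  set T : Set (𝓞 F) := {α : 𝓞 F | α - v ∈ 𝔞 ∧ BxF t α} with hT
  have hTfin : T.Finite := (finite_bxF t).subset fun _ h => h.2
  set S : Set (mixedEmbedding.mixedSpace F) := PDg F 0 t with hS
  have hinj : Function.Injective (fun α : 𝓞 F => mixedEmbedding F (α : F)) := by
    intro a b hab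
    exact RingOfIntegers.ext (mixedEmbedding_injective F hab)
  have hset : {x : mixedEmbedding.mixedSpace F | x - mixedEmbedding F (v : F) ∈ L ∧ x ∈ S} =
      (fun α : 𝓞 F => mixedEmbedding F (α : F)) '' T := by
    ext x
    constructor
    · rintro ⟨h1, h2⟩
      obtain ⟨β, hβ, hx⟩ := (hmem _).1 h1
      have hx' : x = mixedEmbedding F ((β + v : 𝓞 F) : F) := by
        have h3 : ((β + v : 𝓞 F) : F) = (β : F) + (v : F) := map_add _ _ _
        rw [h3, map_add, hx, sub_add_cancel]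
      refine ⟨β + v, ⟨?_, ?_⟩, hx'.symm⟩
      · rw [add_sub_cancel_right]
        exact hβ
      · rw [hx'] at h2
        exact (sbc_mem t _).1 h2
    · rintro ⟨α, ⟨h1, h2⟩, rfl⟩
      refine ⟨?_, (sbc_mem t α).2 h2⟩
      refine (hmem _).2 ⟨α - v, h1, ?_⟩
      have h3 : ((α - v : 𝓞 F) : F) = (α : F) - (v : F) := map_sub _ _ _
      rw [h3, map_sub]
  have hfin : {x : mixedEmbedding.mixedSpace F | x - mixedEmbedding F (v : F) ∈ L ∧ x ∈ S}.Finite := by
    rw [hset]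
    exact hTfin.image _
  have hcard : {x : mixedEmbedding.mixedSpace F | x - mixedEmbedding F (v : F) ∈ L ∧ x ∈ S}.ncard =
      T.ncard := by
    rw [hset, Set.ncard_image_of_injective _ hinj]
  have hDfin : MeasureTheory.volume D ≠ ⊤ := by
    rw [hDvol]
    exact ENNReal.ofReal_ne_top
  have hNa : 0 ≤ (Ideal.absNorm 𝔞 : ℝ) * (1 / 2) ^ r₂ * Real.sqrt (dd F) := by positivity
  have h22 : ((1 : ℝ) / 2) ^ r₂ * 2 ^ r₂ = 1 := by
    rw [← mul_pow]
    norm_num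
  have hkp : 2 ^ r₁ * Real.pi ^ r₂ * 2 ^ r₂ = kpg n m := by
    unfold kpg
    rw [hr₁, hr₂, (td_pl hF).1, (td_pl hF).2, mul_assoc, ← mul_pow, mul_comm Real.pi 2]
  have hcast : ((T.ncard : ℕ) : ENNReal) = ENNReal.ofReal (T.ncard : ℝ) := by
    rw [ENNReal.ofReal_natCast]
  -- lower bound
  have hlow : kpg n m * ((1 - θ) ^ n * P) ≤ (T.ncard : ℝ) * (Ideal.absNorm 𝔞 * Real.sqrt (dd F)) := by
    obtain ⟨hm, hv⟩ := sbc_vol hF t ht (1 - θ) (by linarith)
    have h1 := crb_lower MeasureTheory.volume L D hD B hRad (mixedEmbedding F (v : F)) S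
      (PDg F 0 (fun w => (1 - θ) * t w)) hm (fun x hx y hy w => by
        have h2 := hx w
        have h3 := hy w
        rw [sub_zero] at h2 h3
        rw [sub_zero, sub_eq_add_neg]
        refine (mixedEmbedding.normAtPlace_add_le _ _ _).trans ?_
        rw [mixedEmbedding.normAtPlace_neg]
        linarith) hfin
    rw [hv, hDvol, hcard, hcast, ← ENNReal.ofReal_mul (Nat.cast_nonneg _), ← hPd, ← hr₁, ← hr₂] at h1
    have h2 := (ENNReal.ofReal_le_ofReal_iff (mul_nonneg (Nat.cast_nonneg _) hNa)).1 h1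
    have h3 := mul_le_mul_of_nonneg_right h2 (by positivity : (0 : ℝ) ≤ 2 ^ r₂)
    calc kpg n m * ((1 - θ) ^ n * P) = 2 ^ r₁ * Real.pi ^ r₂ * ((1 - θ) ^ n * P) * 2 ^ r₂ := by
          rw [← hkp]
          ring
      _ ≤ _ := h3
      _ = (T.ncard : ℝ) * (Ideal.absNorm 𝔞 * Real.sqrt (dd F)) *
          ((1 / 2) ^ r₂ * 2 ^ r₂) := by ring
      _ = _ := by rw [h22, mul_one]
  -- upper bound
  have hupp : (T.ncard : ℝ) * (Ideal.absNorm 𝔞 * Real.sqrt (dd F)) ≤ kpg n m * ((1 + θ) ^ n * P) := by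
    obtain ⟨hm, hv⟩ := sbc_vol hF t ht (1 + θ) (by linarith)
    have h1 := crb_upper MeasureTheory.volume L D hD B hRad (mixedEmbedding F (v : F)) S
      (PDg F 0 (fun w => (1 + θ) * t w)) hm (fun x hx y hy w => by
        have h2 := hx w
        have h3 := hy w
        rw [sub_zero] at h2 h3
        rw [sub_zero]
        refine (mixedEmbedding.normAtPlace_add_le _ _ _).trans ?_
        linarith) hfin.toFinset (fun x hx => hfin.mem_toFinset.1 hx)
    rw [hv, hDvol, ← Set.ncard_eq_toFinset_card _ hfin, hcard, hcast,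
      ← ENNReal.ofReal_mul (Nat.cast_nonneg _), ← hPd, ← hr₁, ← hr₂] at h1
    have h2 := (ENNReal.ofReal_le_ofReal_iff (by
      have : 0 ≤ 1 + θ := by linarith
      have := Real.pi_pos
      have : 0 ≤ P := by rw [hPd]; exact hP.le
      positivity)).1 h1
    have h3 := mul_le_mul_of_nonneg_right h2 (by positivity : (0 : ℝ) ≤ 2 ^ r₂)
    calc (T.ncard : ℝ) * (Ideal.absNorm 𝔞 * Real.sqrt (dd F))
        = (T.ncard : ℝ) * (Ideal.absNorm 𝔞 * Real.sqrt (dd F)) *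
          ((1 / 2) ^ r₂ * 2 ^ r₂) := by rw [h22, mul_one]
      _ = (T.ncard : ℝ) * ((Ideal.absNorm 𝔞 : ℝ) * (1 / 2) ^ r₂ * Real.sqrt (dd F)) *
          2 ^ r₂ := by ring
      _ ≤ _ := h3
      _ = kpg n m * ((1 + θ) ^ n * P) := by
          rw [← hkp]
          ring
  obtain ⟨hp1, hp2⟩ := box_pow n 1 θ hθ hθ1
  rw [one_pow, one_pow, one_mul] at hp1 hp2
  have hP0 : 0 < P := by rw [hPd]; exact hP
  have hkP : 0 ≤ kpg n m * P := by positivity
  have hp1' := mul_le_mul_of_nonneg_left hp1 hkP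
  have hp2' := mul_le_mul_of_nonneg_left hp2 hkP
  have hfinal : kpg n m * P * (n * 2 ^ n * θ) ≤ (C₀ + kpg n m * (n * 2 ^ n)) * (θ * P) := by
    have h1 : 0 ≤ C₀ * (θ * P) := by positivity
    nlinarith
  rw [← hPd, abs_le]
  constructor
  · rw [mul_sub] at hp2'
    linarith
  · rw [mul_sub] at hp1'
    linarith

end H1.GS
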