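import Pool.Agent.H1.GS.Df

/-!
# [H1 GS LAT] The lattice of an ideal, boxes and a primitive element, for number fields of any signature

As H36/QA/Latt and H36/QA/Cov, without the assumption that the field is totally complex.
-/

set_option autoImplicit false

open scoped NumberField nonZeroDivisors
open MeasureTheory NumberField H36.QA

noncomputable section

namespace H1.GS

open Classical in
/-- the volume of a box -/
theorem pdg_volume (F : Type) [Field F] [NumberField F]
    (c : mixedEmbedding.mixedSpace F) (f : InfinitePlace F → ℝ) (hf : ∀ w, 0 ≤ f w) :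
    MeasurableSet (PDg F c f) ∧
      volume (PDg F c f) = ENNReal.ofReal
        (2 ^ InfinitePlace.nrRealPlaces F * Real.pi ^ InfinitePlace.nrComplexPlaces F * PG F f) := by
  have hset : PDg F c f = (Set.univ.pi (fun w : {w : InfinitePlace F // w.IsReal} =>
        Metric.closedBall (c.1 w) (f w.1))) ×ˢ
      (Set.univ.pi (fun w : {w : InfinitePlace F // w.IsComplex} =>
        Metric.closedBall (c.2 w) (f w.1))) := by
    ext x
    constructor
    · intro hx
      refine ⟨fun w _ => ?_, fun w _ => ?_⟩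
      · rw [Metric.mem_closedBall, dist_eq_norm]
        have h1 := hx w.1
        rwa [mixedEmbedding.normAtPlace_apply_of_isReal w.2] at h1
      · rw [Metric.mem_closedBall, dist_eq_norm]
        have h1 := hx w.1
        rwa [mixedEmbedding.normAtPlace_apply_of_isComplex w.2] at h1
    · rintro ⟨hx1, hx2⟩ w
      rcases w.isReal_or_isComplex with hw | hw
      · rw [mixedEmbedding.normAtPlace_apply_of_isReal hw]
        have := hx1 ⟨w, hw⟩ (Set.mem_univ _)
        rwa [Metric.mem_closedBall, dist_eq_norm] at this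
      · rw [mixedEmbedding.normAtPlace_apply_of_isComplex hw]
        have := hx2 ⟨w, hw⟩ (Set.mem_univ _)
        rwa [Metric.mem_closedBall, dist_eq_norm] at this
  rw [hset]
  constructor
  · exact MeasurableSet.prod (MeasurableSet.univ_pi (fun _ => measurableSet_closedBall))
      (MeasurableSet.univ_pi (fun _ => measurableSet_closedBall))
  · rw [Measure.volume_eq_prod, Measure.prod_prod, volume_pi, volume_pi, Measure.pi_pi,
      Measure.pi_pi]
    have h1 : ∀ w : {w : InfinitePlace F // w.IsComplex},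
        volume (Metric.closedBall (c.2 w) (f w.1)) = ENNReal.ofReal (Real.pi * f w.1 ^ 2) := by
      intro w
      rw [Complex.volume_closedBall, ENNReal.ofReal_mul Real.pi_pos.le, mul_comm,
        ENNReal.ofReal_pow (hf _)]
      congr 1
      rw [← ENNReal.ofReal_coe_nnreal, NNReal.coe_real_pi]
    have h0 : ∀ w : {w : InfinitePlace F // w.IsReal},
        volume (Metric.closedBall (c.1 w) (f w.1)) = ENNReal.ofReal (2 * f w.1) := by
      intro w
      rw [Real.volume_closedBall]
    rw [Finset.prod_congr rfl (fun w _ => h1 w), Finset.prod_congr rfl (fun w _ => h0 w),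
      ← ENNReal.ofReal_prod_of_nonneg (fun w _ => mul_nonneg Real.pi_pos.le (sq_nonneg _)),
      ← ENNReal.ofReal_prod_of_nonneg (fun w _ => mul_nonneg zero_le_two (hf w.1)),
      ← ENNReal.ofReal_mul (Finset.prod_nonneg fun w _ => mul_nonneg zero_le_two (hf w.1)),
      Finset.prod_mul_distrib, Finset.prod_mul_distrib, Finset.prod_const, Finset.prod_const]
    congr 1
    have h2 : PG F f = (∏ w : {w : InfinitePlace F // w.IsReal}, f w.1) *
        ∏ w : {w : InfinitePlace F // w.IsComplex}, f w.1 ^ 2 := by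
      unfold PG
      rw [InfinitePlace.prod_eq_prod_mul_prod]
      congr 1
      · exact Finset.prod_congr rfl fun w _ => by rw [InfinitePlace.mult_isReal, pow_one]
      · exact Finset.prod_congr rfl fun w _ => by rw [InfinitePlace.mult_isComplex]
    rw [h2, Finset.card_univ, Finset.card_univ]
    have h3 : Fintype.card {w : InfinitePlace F // w.IsReal} = InfinitePlace.nrRealPlaces F := by
      unfold InfinitePlace.nrRealPlaces
      exact Fintype.card_congr (Equiv.refl _)
    have h4 : Fintype.card {w : InfinitePlace F // w.IsComplex} = InfinitePlace.nrComplexPlaces F := by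
      unfold InfinitePlace.nrComplexPlaces
      exact Fintype.card_congr (Equiv.refl _)
    rw [h3, h4]
    ring

open Classical in
theorem ideal_lat (F : Type) [Field F] [NumberField F]
    (𝔞 : Ideal (𝓞 F)) (h𝔞 : 𝔞 ≠ ⊥) :
    ∃ (L : AddSubgroup (mixedEmbedding.mixedSpace F)) (D : Set (mixedEmbedding.mixedSpace F)),
      Countable L ∧ IsAddFundamentalDomain L D (volume : Measure (mixedEmbedding.mixedSpace F)) ∧
      volume D = ENNReal.ofReal (Ideal.absNorm 𝔞 * (1 / 2) ^ (InfinitePlace.nrComplexPlaces F) * Real.sqrt (dd F)) ∧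
      (∀ x, x ∈ L ↔ ∃ α ∈ 𝔞, mixedEmbedding F (α : F) = x) := by
  set I : (FractionalIdeal (𝓞 F)⁰ F)ˣ :=
    FractionalIdeal.mk0 F ⟨𝔞, mem_nonZeroDivisors_iff_ne_zero.2 h𝔞⟩ with hI
  set b := mixedEmbedding.fractionalIdealLatticeBasis F I with hb
  refine ⟨(Submodule.span ℤ (Set.range b)).toAddSubgroup, ZSpan.fundamentalDomain b, ?_,
    ZSpan.isAddFundamentalDomain' b volume, ?_, ?_⟩
  · change Countable (Submodule.span ℤ (Set.range b))
    infer_instance
  · rw [hb, mixedEmbedding.volume_fundamentalDomain_fractionalIdealLatticeBasis,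
      mixedEmbedding.volume_fundamentalDomain_latticeBasis, hI, FractionalIdeal.coe_mk0,
      FractionalIdeal.coeIdeal_absNorm]
    have e1 : ((2 : ENNReal)⁻¹) ^ (InfinitePlace.nrComplexPlaces F) =
        ENNReal.ofReal ((1 / 2) ^ (InfinitePlace.nrComplexPlaces F)) := by
      rw [ENNReal.ofReal_pow (by norm_num), one_div, ENNReal.ofReal_inv_of_pos (by norm_num)]
      norm_num
    have e2 : ((NNReal.sqrt ‖discr F‖₊ : NNReal) : ENNReal) = ENNReal.ofReal (Real.sqrt (dd F)) := by
      rw [← ENNReal.ofReal_coe_nnreal, Real.coe_sqrt, coe_nnnorm, Int.norm_eq_abs]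
      rfl
    rw [ENNReal.ofReal_mul (by positivity), ENNReal.ofReal_mul (by positivity), mul_assoc, e1, e2]
    norm_num
  · intro x
    rw [Submodule.mem_toAddSubgroup, hb, mixedEmbedding.mem_span_fractionalIdealLatticeBasis]
    constructor
    · rintro ⟨y, hy, rfl⟩
      rw [hI, FractionalIdeal.coe_mk0] at hy
      obtain ⟨α, hα, rfl⟩ := (FractionalIdeal.mem_coeIdeal (𝓞 F)⁰).1 hy
      exact ⟨α, hα, rfl⟩
    · rintro ⟨α, hα, rfl⟩
      refine ⟨(α : F), ?_, rfl⟩
      rw [hI, FractionalIdeal.coe_mk0]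
      exact (FractionalIdeal.mem_coeIdeal (𝓞 F)⁰).2 ⟨α, hα, rfl⟩

open Classical in
/-- an upper bound of the Minkowski bound -/
theorem gcov_mink (n : ℕ) (F : Type) [Field F] [NumberField F] (hF : Module.finrank ℚ F = n)
    (I : (FractionalIdeal (𝓞 F)⁰ F)ˣ) :
    mixedEmbedding.minkowskiBound F I ≤
      ENNReal.ofReal ((FractionalIdeal.absNorm I.1 : ℝ) * (Real.sqrt (dd F) * 2 ^ n)) := by
  unfold mixedEmbedding.minkowskiBound
  rw [mixedEmbedding.volume_fundamentalDomain_fractionalIdealLatticeBasis,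
    mixedEmbedding.volume_fundamentalDomain_latticeBasis, mixedEmbedding.finrank, hF,
    ENNReal.ofReal_mul (by exact_mod_cast FractionalIdeal.absNorm_nonneg I.1), mul_assoc,
    ENNReal.ofReal_mul (Real.sqrt_nonneg _)]
  have e2 : ((NNReal.sqrt ‖discr F‖₊ : NNReal) : ENNReal) = ENNReal.ofReal (Real.sqrt (dd F)) := by
    rw [← ENNReal.ofReal_coe_nnreal, Real.coe_sqrt, coe_nnnorm, Int.norm_eq_abs]
    rfl
  have e3 : ENNReal.ofReal ((2 : ℝ) ^ n) = (2 : ENNReal) ^ n := by
    rw [ENNReal.ofReal_pow (by norm_num)]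
    norm_num
  rw [e2, e3]
  gcongr
  have h1 : ((2 : ENNReal)⁻¹) ^ InfinitePlace.nrComplexPlaces F ≤ 1 := by
    apply pow_le_one₀ zero_le
    rw [ENNReal.inv_le_one]
    norm_num
  calc (2 : ENNReal)⁻¹ ^ InfinitePlace.nrComplexPlaces F * ENNReal.ofReal (Real.sqrt (dd F))
      ≤ 1 * ENNReal.ofReal (Real.sqrt (dd F)) := by gcongr
    _ = _ := one_mul _

/-- a primitive element with small absolute values -/
theorem gcov_prim (n : ℕ) (F : Type) [Field F] [NumberField F] (hF : Module.finrank ℚ F = n) :
    ∃ a : 𝓞 F, IntermediateField.adjoin ℚ {(a : F)} = ⊤ ∧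
      ∀ w : InfinitePlace F, w (a : F) ≤ (2 + 2 ^ n) * dd F := by
  obtain ⟨w₀⟩ : Nonempty (InfinitePlace F) := inferInstance
  have hdd := one_le_dd F
  have hsq : Real.sqrt (dd F) ≤ dd F := by
    rw [Real.sqrt_le_left (by linarith)]
    nlinarith
  obtain ⟨B, hB'⟩ : ∃ B : NNReal, (B : ℝ) = 2 ^ n * dd F + 1 :=
    ⟨⟨2 ^ n * dd F + 1, by positivity⟩, rfl⟩
  have h2n : (1 : ℝ) ≤ 2 ^ n := one_le_pow₀ (by norm_num)
  have h3 : 0 ≤ (2 : ℝ) ^ n * dd F := by positivity
  have hltB : mixedEmbedding.minkowskiBound F (1 : (FractionalIdeal (𝓞 F)⁰ F)ˣ) < (B : ENNReal) := by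
    refine (gcov_mink n F hF 1).trans_lt ?_
    have hBpos : (0 : ℝ) < B := by rw [hB']; positivity
    rw [← ENNReal.ofReal_coe_nnreal]
    rw [ENNReal.ofReal_lt_ofReal_iff hBpos]
    rw [Units.val_one, map_one, hB']
    have : Real.sqrt (dd F) * 2 ^ n ≤ dd F * 2 ^ n := by gcongr
    push_cast
    linarith
  rcases w₀.isReal_or_isComplex with hw₀ | hw₀
  · have hlt : mixedEmbedding.minkowskiBound F (1 : (FractionalIdeal (𝓞 F)⁰ F)ˣ) <
        mixedEmbedding.convexBodyLTFactor F * B := by
      refine hltB.trans_le ?_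
      calc (B : ENNReal) = 1 * B := (one_mul _).symm
        _ ≤ mixedEmbedding.convexBodyLTFactor F * B := by
          gcongr
          exact_mod_cast mixedEmbedding.one_le_convexBodyLTFactor F
    obtain ⟨a, ha, haw⟩ := mixedEmbedding.exists_primitive_element_lt_of_isReal F hw₀ hlt
    refine ⟨a, ha, fun w => (haw w).le.trans ?_⟩
    rw [NNReal.coe_max, hB', NNReal.coe_one]
    refine max_le ?_ ?_ <;> nlinarith
  · have hlt : mixedEmbedding.minkowskiBound F (1 : (FractionalIdeal (𝓞 F)⁰ F)ˣ) <
        mixedEmbedding.convexBodyLT'Factor F * B := by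
      refine hltB.trans_le ?_
      calc (B : ENNReal) = 1 * B := (one_mul _).symm
        _ ≤ mixedEmbedding.convexBodyLT'Factor F * B := by
          gcongr
          exact_mod_cast mixedEmbedding.one_le_convexBodyLT'Factor F
    obtain ⟨a, ha, haw⟩ := mixedEmbedding.exists_primitive_element_lt_of_isComplex F hw₀ hlt
    refine ⟨a, ha, fun w => (haw w).le.trans ?_⟩
    rw [Real.sqrt_le_left (by positivity), hB']
    nlinarith

/-- the real span of the images of `y a^i` -/
theorem gcov_span (n : ℕ) (F : Type) [Field F] [NumberField F] (hF : Module.finrank ℚ F = n) (a y : 𝓞 F)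
    (ha : IntermediateField.adjoin ℚ {(a : F)} = ⊤) (hy : y ≠ 0) :
    ⊤ ≤ Submodule.span ℝ (Set.range (fun i : Fin n =>
      mixedEmbedding F ((y * a ^ (i : ℕ) : 𝓞 F) : F))) := by
  have hdeg : (minpoly ℚ (a : F)).natDegree = n := by
    rw [(Field.primitive_element_iff_minpoly_natDegree_eq ℚ (a : F)).1 ha, hF]
  have hli : LinearIndependent ℚ (fun i : Fin n => (a : F) ^ (i : ℕ)) := by
    have := linearIndependent_pow (K := ℚ) (a : F)
    rw [hdeg] at this
    exact this
  have hy' : (y : F) ≠ 0 := by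
    intro h
    apply hy
    exact RingOfIntegers.coe_eq_zero_iff.1 h
  have hli2 : LinearIndependent ℚ (fun i : Fin n => (y : F) * (a : F) ^ (i : ℕ)) := by
    have h1 := hli.map' (LinearMap.mulLeft ℚ (y : F)) (by
      rw [LinearMap.ker_eq_bot]
      intro u v huv
      exact mul_left_cancel₀ hy' huv)
    exact h1
  have hspan := hli2.span_eq_top_of_card_eq_finrank' (by rw [Fintype.card_fin, hF])
  have hall : ∀ z : F, mixedEmbedding F z ∈ Submodule.span ℝ (Set.range (fun i : Fin n =>
      mixedEmbedding F ((y * a ^ (i : ℕ) : 𝓞 F) : F))) := by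
    intro z
    have hz : z ∈ Submodule.span ℚ (Set.range (fun i : Fin n => (y : F) * (a : F) ^ (i : ℕ))) := by
      rw [hspan]
      trivial
    induction hz using Submodule.span_induction with
    | mem x hx =>
      obtain ⟨i, rfl⟩ := hx
      apply Submodule.subset_span
      refine ⟨i, ?_⟩
      simp
    | zero =>
      rw [map_zero]
      exact Submodule.zero_mem _
    | add u v _ _ hu hv =>
      rw [map_add]
      exact Submodule.add_mem _ hu hv
    | smul q u _ hu =>
      rw [map_rat_smul, ← Rat.cast_smul_eq_qsmul ℝ]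
      exact Submodule.smul_mem _ _ hu
  rw [← (mixedEmbedding.latticeBasis F).span_eq, Submodule.span_le]
  rintro _ ⟨i, rfl⟩
  rw [mixedEmbedding.latticeBasis_apply]
  exact hall _

end H1.GS
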