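import Pool.Agent.H1.GS.Icg
import Pool.Agent.H1.GS.Cva
import Pool.Agent.H1.LS4.Cmp
import Pool.Agent.H1.LS4.Bad
import Pool.Agent.H1.LS4.Lca
import Pool.Agent.H1.LS4.Lqs
import Pool.Agent.H1.LS4.Cpf

/-!
# [H1 GS LI1] The sum over squarefree ideals of one pair, any signature

As H1/LS4/Li1.
-/

set_option autoImplicit false

open scoped NumberField Classical
open NumberField H63.MA H36.QA H57.LI H1.LS4

noncomputable section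

namespace H1.GS

private theorem md_norm {K F : Type} [Field K] [NumberField K] [Field F] [NumberField F] [Algebra K F]
    (hd : Module.finrank K F = 3) (𝔪 : Ideal (𝓞 K)) :
    Ideal.absNorm (md 𝔪 F) = Ideal.absNorm 𝔪 ^ 3 := by
  unfold md
  rw [Ideal.absNorm_algebraMap, ← IsFractionRing.finrank_eq (𝓞 K) K (𝓞 F) F, hd]

private theorem md_ne {K F : Type} [Field K] [NumberField K] [Field F] [NumberField F] [Algebra K F]
    {𝔪 : Ideal (𝓞 K)} (h : 𝔪 ≠ ⊥) : md 𝔪 F ≠ ⊥ := by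
  unfold md
  intro h1
  exact h ((Ideal.map_eq_bot_iff_of_injective
    (FaithfulSMul.algebraMap_injective (𝓞 K) (𝓞 F))).1 h1)

private theorem rc_le {F : Type} [Field F] [NumberField F] {𝔣 : Ideal (𝓞 F)} (χ : RC F 𝔣) (I : Ideal (𝓞 F)) :
    ‖χ.χ I‖ ≤ 1 := by
  by_cases h0 : I = ⊥
  · rw [h0, ← Ideal.zero_eq_bot, map_zero, norm_zero]
    exact zero_le_one
  by_cases h1 : IsCoprime I 𝔣
  · rw [χ.norm_one I h0 h1]
  · rw [χ.zero_of I h1, norm_zero]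
    exact zero_le_one

theorem fr_up {K F : Type} [Field K] [NumberField K] [Field F] [NumberField F] [Algebra K F] {n d : ℕ}
    (hK : Module.finrank ℚ K = n) (hd : Module.finrank K F = d) : Module.finrank ℚ F = n * d := by
  rw [← Module.finrank_mul_finrank ℚ K F, hK, hd]

theorem li1 {K Ω : Type} [Field K] [NumberField K] [Field Ω] [Algebra K Ω] {n : ℕ} (hn : 0 < n) (hK : Module.finrank ℚ K = n)
    (𝔪 : Ideal (𝓞 K)) (h𝔪 : 𝔪 ≠ ⊥) : LI1 K Ω 𝔪 := by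
  obtain ⟨C, A, δ, hC, hδ, hδ4, hcva⟩ := cva (n * 3) (by omega) (icg (n * 3)) 1 le_rfl
  obtain ⟨C₀, hC₀, hcmp⟩ := cmp K 1 3 3
  obtain ⟨a, ha⟩ := pow_unbounded_of_one_lt C₀ (one_lt_two : (1 : ℝ) < 2)
  have hN : (1 : ℝ) ≤ Ideal.absNorm 𝔪 := by
    have h1 : Ideal.absNorm 𝔪 ≠ 0 := fun h => h𝔪 (Ideal.absNorm_eq_zero_iff.1 h)
    exact_mod_cast Nat.one_le_iff_ne_zero.2 h1
  have hN3 : (1 : ℝ) ≤ (Ideal.absNorm 𝔪 : ℝ) ^ 3 := one_le_pow₀ hN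
  have hC0 : (0 : ℝ) ≤ C := by linarith
  have hC₀0 : (0 : ℝ) ≤ C₀ := by linarith
  refine ⟨C₀ * C * ((Ideal.absNorm 𝔪 : ℝ) ^ 3) ^ A, A + a, δ, ?_, hδ, hδ4, fun x Y hY => ?_⟩
  · have h1 : (1 : ℝ) ≤ C₀ * C := one_le_mul_of_one_le_of_one_le hC₀ hC
    exact one_le_mul_of_one_le_of_one_le h1 (one_le_pow₀ hN3)
  have hdd : 1 ≤ dd x.F := one_le_dd x.F
  obtain ⟨B, hB, hun⟩ := bad K x.F
  have hb : ∀ M : ℝ, 1 ≤ M → ‖cvs ∅ [x.χ.χ] M‖ ≤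
      C * (dd x.F * (Ideal.absNorm 𝔪 : ℝ) ^ 3) ^ A * M ^ (1 - δ) := by
    intro M hM
    have h1 := hcva x.F (fr_up hK x.deg) (md 𝔪 x.F) (md_ne h𝔪) [x.χ] rfl
      (fun ψ hψ => by rw [List.mem_singleton.1 hψ]; exact x.non) M hM
    rw [md_norm x.deg, Nat.cast_pow] at h1
    exact h1
  have hD : (0 : ℝ) ≤ C * (dd x.F * (Ideal.absNorm 𝔪 : ℝ) ^ 3) ^ A := by positivity
  have h2 := hcmp x.F x.deg.le [x.χ.χ] le_rfl
    (fun ψ hψ I => by rw [List.mem_singleton.1 hψ]; exact rc_le x.χ I)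
    (fun l => lpc (K := K) x.χ.χ l.asIdeal) (fun l => lp_le x l) B
    (fun l hl => by
      rw [List.map_singleton, List.sum_singleton]
      exact lca1 x.deg x.χ.χ l (hun l hl))
    _ δ hD hδ hδ4 hb Y hY
  have h3 : |∑ q ∈ IN K Y, x.lq q| = ‖∑ s ∈ AF K Y, ∏ l ∈ s, lpc (K := K) x.χ.χ l.asIdeal‖ := by
    rw [← lq_sum1 x Y hY, Complex.norm_real, Real.norm_eq_abs]
  have h4 : C₀ ^ B.card ≤ dd x.F ^ a := by
    calc C₀ ^ B.card ≤ ((2 : ℝ) ^ a) ^ B.card := pow_le_pow_left₀ hC₀0 ha.le _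
      _ = ((2 : ℝ) ^ B.card) ^ a := by rw [← pow_mul, ← pow_mul, mul_comm]
      _ ≤ dd x.F ^ a := pow_le_pow_left₀ (by positivity) hB _
  have hYp : (0 : ℝ) ≤ Y ^ (1 - δ) := Real.rpow_nonneg (by linarith) _
  rw [h3]
  refine h2.trans ?_
  calc C₀ * C₀ ^ B.card * (C * (dd x.F * (Ideal.absNorm 𝔪 : ℝ) ^ 3) ^ A) * Y ^ (1 - δ)
      ≤ C₀ * dd x.F ^ a * (C * (dd x.F * (Ideal.absNorm 𝔪 : ℝ) ^ 3) ^ A) * Y ^ (1 - δ) := by
        gcongr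
    _ = C₀ * C * ((Ideal.absNorm 𝔪 : ℝ) ^ 3) ^ A * x.D ^ (A + a) * Y ^ (1 - δ) := by
        show _ = C₀ * C * ((Ideal.absNorm 𝔪 : ℝ) ^ 3) ^ A * dd x.F ^ (A + a) * Y ^ (1 - δ)
        rw [mul_pow, pow_add]
        ring

end H1.GS
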