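import Pool.Agent.H1.GS.Cor
import Pool.Agent.H57.LI.Fin
import Pool.Agent.H48.T3.Tcx

/-!
# [H1 GS LI12] CHAPTER LI of AQ: (LI1) and (LI2) over every number field
-/

set_option autoImplicit false

open scoped NumberField
open IsDedekindDomain H38.ML H63.MA H48.KV Filter Topology
open H48.T3 hiding Ch

noncomputable section

namespace H1.GS

variable {K : IntermediateField ℚ QBar} [NumberField K]

/-- CHAPTER LI, part 2: the sums over squarefree ideals of the pairs (cyclic cubic field, quadratic ray class character) -/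
theorem li12 (S : Finset (Pl K)) : H57.LI.LI1 K QBar (mS S) ∧ H57.LI.LI2 K QBar (mS S) := by
  have hn : 0 < Module.finrank ℚ K := Module.finrank_pos
  have h1 : H57.LI.LI1 K QBar (mS S) := li1 hn rfl (mS S) (mS_ne S)
  exact ⟨h1, H57.LI.li2 K QBar (mS S) (corr hn rfl (mS S) (mS_ne S)) h1⟩

end H1.GS
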