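import Pool.Agent.H1.GS.Df

/-!
# [H1 GS RAD] The radii and the set of the points of the logarithmic space whose box contains a given element, any signature

As H1/LS4/Rad.
-/

set_option autoImplicit false

open scoped NumberField Classical
open NumberField NumberField.Units NumberField.Units.dirichletUnitTheorem H63.MA H36.QA H57.TLS MeasureTheory H1.LS4

noncomputable section

namespace H1.GS

variable {F : Type} [Field F] [NumberField F]

/-- the coordinates of a point of the logarithmic space at all places; they sum to zero -/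
private def ee (y : logSpace F) (w : InfinitePlace F) : ℝ :=
  if h : w = w₀ then - ∑ v, y v else y ⟨w, h⟩

private theorem ee_w0 (y : logSpace F) : ee y w₀ = - ∑ v, y v := by
  unfold ee
  rw [dif_pos rfl]

private theorem ee_ne (y : logSpace F) (v : {w : InfinitePlace F // w ≠ w₀}) : ee y v.1 = y v := by
  unfold ee
  rw [dif_neg v.2]

private theorem sum_ee (y : logSpace F) : ∑ w, ee y w = 0 := by
  rw [Fintype.sum_eq_add_sum_subtype_ne _ w₀, ee_w0]
  simp only [ee_ne]
  ring

private theorem rad_eq (y : logSpace F) (q : ℝ) (w : InfinitePlace F) :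
    radg y q w = Real.exp ((q / (lrk F + 1) + ee y w) / w.mult) := rfl

private theorem ee_sub (y z : logSpace F) (w : InfinitePlace F) : ee (y - z) w = ee y w - ee z w := by
  unfold ee
  by_cases h : w = w₀
  · rw [dif_pos h, dif_pos h, dif_pos h]
    simp only [Pi.sub_apply, Finset.sum_sub_distrib]
    ring
  · rw [dif_neg h, dif_neg h, dif_neg h]
    rfl

theorem rad_pos (y : logSpace F) (q : ℝ) (w : InfinitePlace F) : 0 < radg y q w := Real.exp_pos _

theorem rad_prod (y : logSpace F) (q : ℝ) : PG F (radg y q) = Real.exp q := by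
  have h1 : ∀ w : InfinitePlace F, radg y q w ^ w.mult = Real.exp (q / (lrk F + 1) + ee y w) := by
    intro w
    rw [rad_eq, ← Real.exp_nat_mul]
    congr 1
    have := mult_pos' w
    field_simp
  show ∏ w, radg y q w ^ w.mult = _
  simp only [h1]
  rw [← Real.exp_sum, Finset.sum_add_distrib, sum_ee, Finset.sum_const, Finset.card_univ, card_eq]
  congr 1
  have : ((lrk F : ℝ) + 1) ≠ 0 := by positivity
  rw [nsmul_eq_mul]
  push_cast
  field_simp
  ring

theorem rad_meas (q : ℝ) (α : 𝓞 F) : MeasurableSet {y : logSpace F | BxF (radg y q) α} := by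
  have h : {y : logSpace F | BxF (radg y q) α} = ⋂ w : InfinitePlace F, {y | w (α : F) ≤ radg y q w} := by
    ext y
    simp only [Set.mem_ofPred_eq, Set.mem_iInter]
    rfl
  rw [h]
  refine MeasurableSet.iInter fun w => measurableSet_le measurable_const ?_
  have hc : Continuous fun y : logSpace F => radg y q w := by
    simp only [rad_eq]
    refine Real.continuous_exp.comp ((continuous_const.add ?_).div_const _)
    unfold ee
    by_cases hw : w = w₀
    · simp only [dif_pos hw]
      fun_prop
    · simp only [dif_neg hw]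
      fun_prop
  exact hc.measurable

private theorem bx_iff (q : ℝ) (α : 𝓞 F) (hα : α ≠ 0) (y : logSpace F) :
    BxF (radg y q) α ↔
      ∀ w : InfinitePlace F, (w.mult : ℝ) * Real.log (w (α : F)) ≤ q / (lrk F + 1) + ee y w := by
  refine forall_congr' fun w => ?_
  have hpos : 0 < w (α : F) := by
    rw [InfinitePlace.pos_iff]
    exact fun h => hα (by exact_mod_cast h)
  rw [rad_eq, ← Real.log_le_iff_le_exp hpos, le_div_iff₀ (mult_pos' w), mul_comm]

theorem rad_vol (q : ℝ) (α : 𝓞 F) (hα : α ≠ 0) :
    volume {y : logSpace F | BxF (radg y q) α} =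
      if Real.log (Ideal.absNorm (Ideal.span {α})) ≤ q then
        ENNReal.ofReal (smp (lrk F) * (q - Real.log (Ideal.absNorm (Ideal.span {α}))) ^ lrk F) else 0 := by
  set L : ℝ := Real.log (Ideal.absNorm (Ideal.span {α})) with hL
  have hpos : ∀ w : InfinitePlace F, 0 < w (α : F) := by
    intro w
    rw [InfinitePlace.pos_iff]
    exact fun h => hα (by exact_mod_cast h)
  have hsum : ∑ w : InfinitePlace F, (w.mult : ℝ) * Real.log (w (α : F)) = L := by
    rw [hL, ← prod_mult_eq_norm α, Real.log_prod fun w _ => (pow_pos (hpos w) _).ne']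
    refine Finset.sum_congr rfl fun w _ => ?_
    rw [Real.log_pow]
  rw [Fintype.sum_eq_add_sum_subtype_ne _ w₀] at hsum
  set c : logSpace F := fun v => (v.1.mult : ℝ) * Real.log (v.1 (α : F)) - q / (lrk F + 1) with hc
  have hr : ((lrk F : ℝ) + 1) ≠ 0 := by positivity
  have hcard : Fintype.card {w : InfinitePlace F // w ≠ w₀} = lrk F := rfl
  have hset : {y : logSpace F | BxF (radg y q) α} =
      (fun y => y + (-c)) ⁻¹' Smp {w : InfinitePlace F // w ≠ w₀} (q - L) := by
    ext y
    rw [Set.mem_ofPred_eq, bx_iff q α hα, Set.mem_preimage]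
    have e1 : ∑ v, (y + -c) v = ∑ v, y v - ∑ v : {w : InfinitePlace F // w ≠ w₀},
        (v.1.mult : ℝ) * Real.log (v.1 (α : F)) + lrk F * (q / (lrk F + 1)) := by
      simp only [Pi.add_apply, Pi.neg_apply, hc, Finset.sum_add_distrib, Finset.sum_neg_distrib,
        Finset.sum_sub_distrib, Finset.sum_const, Finset.card_univ, hcard, nsmul_eq_mul]
      ring
    have e2 : (lrk F : ℝ) * (q / (lrk F + 1)) + q / (lrk F + 1) = q := by
      field_simp
    constructor
    · intro h
      refine ⟨fun v => ?_, ?_⟩
      · have := h v.1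
        rw [ee_ne] at this
        simp only [Pi.add_apply, Pi.neg_apply, hc]
        linarith
      · have := h w₀
        rw [ee_w0] at this
        rw [e1]
        linarith
    · rintro ⟨h1, h2⟩ w
      by_cases hw : w = w₀
      · rw [hw, ee_w0]
        rw [e1] at h2
        linarith
      · have := h1 ⟨w, hw⟩
        simp only [Pi.add_apply, Pi.neg_apply, hc] at this
        rw [show ee y w = y ⟨w, hw⟩ from ee_ne y ⟨w, hw⟩]
        linarith
  rw [hset, measure_preimage_add_right]
  split_ifs with hq
  · rw [smp_vol _ _ (by linarith), hcard]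
  · have : Smp {w : InfinitePlace F // w ≠ w₀} (q - L) = ∅ := by
      rw [Set.eq_empty_iff_forall_notMem]
      rintro z ⟨h1, h2⟩
      have : 0 ≤ ∑ v, z v := Finset.sum_nonneg fun v _ => h1 v
      linarith
    rw [this, measure_empty]

theorem rad_unit (u : (𝓞 F)ˣ) (q : ℝ) (α : 𝓞 F) (y : logSpace F) :
    BxF (radg y q) ((u : 𝓞 F) * α) ↔ BxF (radg (y - logEmbedding F (Additive.ofMul u)) q) α := by
  refine forall_congr' fun w => ?_
  have hu : 0 < w (u : F) := Units.pos_at_place u w
  have he : ee (logEmbedding F (Additive.ofMul u)) w = (w.mult : ℝ) * Real.log (w (u : F)) := by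
    by_cases hw : w = w₀
    · rw [hw, ee_w0, sum_logEmbedding_component]
      push_cast
      ring
    · rw [show ee (logEmbedding F (Additive.ofMul u)) w =
        (logEmbedding F (Additive.ofMul u)) ⟨w, hw⟩ from ee_ne _ ⟨w, hw⟩, logEmbedding_component]
  have h1 : w (((u : 𝓞 F) * α : 𝓞 F) : F) = w (u : F) * w (α : F) := by
    rw [← map_mul]
    congr 1
  have h2 : radg (y - logEmbedding F (Additive.ofMul u)) q w = radg y q w / w (u : F) := by
    rw [rad_eq, rad_eq, ee_sub, he]
    conv_rhs => rw [← Real.exp_log hu, ← Real.exp_sub]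
    congr 1
    have := mult_pos' w
    field_simp
    ring
  rw [h1, h2, le_div_iff₀ hu, mul_comm]

end H1.GS
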