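import Pool.Agent.H1.GS.Lat

/-!
# [H1 GS SKC] The covering of the space by an ideal lattice, with skew radii, for number fields of any signature

As H1/LS4/Skc.
-/

set_option autoImplicit false

open scoped NumberField Classical
open NumberField NumberField.Units NumberField.Units.dirichletUnitTheorem H63.MA H36.QA H57.TLS MeasureTheory

noncomputable section

namespace H1.GS

/-- a small nonzero element of an ideal, with radii -/
private theorem skc_elt (n : ℕ) (F : Type) [Field F] [NumberField F] (hF : Module.finrank ℚ F = n)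
    (𝔞 : Ideal (𝓞 F)) (h𝔞 : 𝔞 ≠ ⊥) (g : InfinitePlace F → ℝ) (hg : ∀ w, 0 ≤ g w)
    (h : Ideal.absNorm 𝔞 * (Real.sqrt (dd F) * 2 ^ n) < PG F g) :
    ∃ y ∈ 𝔞, y ≠ 0 ∧ ∀ w : InfinitePlace F, w (y : F) ≤ g w := by
  obtain ⟨g', hg'⟩ : ∃ g' : InfinitePlace F → NNReal, ∀ w, (g' w : ℝ) = g w :=
    ⟨fun w => ⟨g w, hg w⟩, fun _ => rfl⟩
  set I : (FractionalIdeal (nonZeroDivisors (𝓞 F)) F)ˣ :=
    FractionalIdeal.mk0 F ⟨𝔞, mem_nonZeroDivisors_iff_ne_zero.2 h𝔞⟩ with hI
  have hlt : mixedEmbedding.minkowskiBound F I <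
      volume (mixedEmbedding.convexBodyLT F g') := by
    refine (gcov_mink n F hF I).trans_lt ?_
    rw [hI, FractionalIdeal.coe_mk0, FractionalIdeal.coeIdeal_absNorm,
      mixedEmbedding.convexBodyLT_volume]
    have hprod : ((∏ w : InfinitePlace F, g' w ^ w.mult : NNReal) : ℝ) = PG F g := by
      unfold PG
      rw [NNReal.coe_prod]
      refine Finset.prod_congr rfl fun w _ => ?_
      rw [NNReal.coe_pow, hg']
    have h1 : ENNReal.ofReal (((Ideal.absNorm (((⟨𝔞, mem_nonZeroDivisors_iff_ne_zero.2 h𝔞⟩ :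
        nonZeroDivisors (Ideal (𝓞 F))) : Ideal (𝓞 F))) : ℚ) : ℝ) * (Real.sqrt (dd F) * 2 ^ n)) <
        ((∏ w : InfinitePlace F, g' w ^ w.mult : NNReal) : ENNReal) := by
      rw [← ENNReal.ofReal_coe_nnreal, ENNReal.ofReal_lt_ofReal_iff_of_nonneg (by positivity)]
      rw [hprod]
      exact_mod_cast h
    refine h1.trans_le ?_
    calc ((∏ w : InfinitePlace F, g' w ^ w.mult : NNReal) : ENNReal) =
        1 * ((∏ w : InfinitePlace F, g' w ^ w.mult : NNReal) : ENNReal) := (one_mul _).symm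
      _ ≤ _ := by
        gcongr
        exact_mod_cast mixedEmbedding.one_le_convexBodyLTFactor F
  obtain ⟨y, hyI, hy0, hyw⟩ := mixedEmbedding.exists_ne_zero_mem_ideal_lt F I hlt
  rw [hI, FractionalIdeal.coe_mk0] at hyI
  obtain ⟨α, hα, rfl⟩ := (FractionalIdeal.mem_coeIdeal (nonZeroDivisors (𝓞 F))).1 hyI
  refine ⟨α, hα, ?_, fun w => by rw [← hg']; exact (hyw w).le⟩
  rintro rfl
  exact hy0 (map_zero _)

/-- the absolute value at a place of a sum -/
private theorem nap_sum {F : Type} [Field F] [NumberField F] (w : InfinitePlace F) {ι : Type} (s : Finset ι)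
    (x : ι → mixedEmbedding.mixedSpace F) :
    mixedEmbedding.normAtPlace w (∑ i ∈ s, x i) ≤ ∑ i ∈ s, mixedEmbedding.normAtPlace w (x i) := by
  induction s using Finset.induction_on with
  | empty => rw [Finset.sum_empty, Finset.sum_empty, map_zero]
  | insert a s ha ih =>
    rw [Finset.sum_insert ha, Finset.sum_insert ha]
    exact (mixedEmbedding.normAtPlace_add_le _ _ _).trans (by linarith)

/-- the fractional part at one place -/
private theorem skc_fract {n : ℕ} {F : Type} [Field F] [NumberField F]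
    (b : Module.Basis (Fin n) ℝ (mixedEmbedding.mixedSpace F)) (x : mixedEmbedding.mixedSpace F)
    (w : InfinitePlace F) (D : ℝ) (hD : ∀ i, mixedEmbedding.normAtPlace w (b i) ≤ D) :
    mixedEmbedding.normAtPlace w (x - (ZSpan.floor b x : mixedEmbedding.mixedSpace F)) ≤ n * D := by
  have h1 : x - (ZSpan.floor b x : mixedEmbedding.mixedSpace F) = ZSpan.fract b x := rfl
  have h2 : (ZSpan.fract b x) = ∑ i, Int.fract (b.repr x i) • b i := by
    conv_lhs => rw [← b.sum_repr (ZSpan.fract b x)]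
    refine Finset.sum_congr rfl fun i _ => ?_
    rw [ZSpan.repr_fract_apply]
  rw [h1, h2]
  calc mixedEmbedding.normAtPlace w (∑ i, Int.fract (b.repr x i) • b i) ≤
        ∑ i, mixedEmbedding.normAtPlace w (Int.fract (b.repr x i) • b i) := nap_sum w _ _
    _ ≤ ∑ _i : Fin n, D := by
        refine Finset.sum_le_sum fun i _ => ?_
        rw [mixedEmbedding.normAtPlace_smul, abs_of_nonneg (Int.fract_nonneg _)]
        exact (mul_le_of_le_one_left (mixedEmbedding.normAtPlace_nonneg _ _) (Int.fract_lt_one _).le).trans (hD i)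
    _ = n * D := by
        rw [Finset.sum_const, Finset.card_univ, Fintype.card_fin, nsmul_eq_mul]

theorem skc (n m : ℕ) (hn : 0 < n) : ∃ C : ℝ, 1 ≤ C ∧ ∃ A : ℕ, ∀ (F : Type) [Field F] [NumberField F], TD F n m →
    ∀ 𝔞 : Ideal (𝓞 F), 𝔞 ≠ ⊥ → ∀ f : InfinitePlace F → ℝ, (∀ w, 0 < f w) →
      ∀ x : mixedEmbedding.mixedSpace F, ∃ α ∈ 𝔞, ∀ w : InfinitePlace F,
        mixedEmbedding.normAtPlace w (x - mixedEmbedding F (α : F)) ^ n * PG F f ≤
          C * dd F ^ A * Ideal.absNorm 𝔞 * f w ^ n := by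
  have hnn : (1 : ℝ) ≤ (n : ℝ) ^ n := one_le_pow₀ (by exact_mod_cast hn)
  have h2n : (1 : ℝ) ≤ 2 ^ (n + 1) := one_le_pow₀ (by norm_num)
  have h3n : (1 : ℝ) ≤ (2 + 2 ^ n) ^ (n * n) := by
    apply one_le_pow₀
    have : (0 : ℝ) ≤ 2 ^ n := by positivity
    linarith
  refine ⟨(n : ℝ) ^ n * 2 ^ (n + 1) * (2 + 2 ^ n) ^ (n * n), ?_, n * n + 1, ?_⟩
  · exact one_le_mul_of_one_le_of_one_le (one_le_mul_of_one_le_of_one_le hnn h2n) h3n
  intro F _ _ hF 𝔞 h𝔞 f hf x
  have hdd := one_le_dd F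
  have hN : (1 : ℝ) ≤ Ideal.absNorm 𝔞 := by
    have : 1 ≤ Ideal.absNorm 𝔞 := Nat.one_le_iff_ne_zero.2 (by
      rwa [Ne, Ideal.absNorm_eq_zero_iff])
    exact_mod_cast this
  have hsq : Real.sqrt (dd F) ≤ dd F := by
    rw [Real.sqrt_le_left (by linarith)]
    nlinarith
  obtain ⟨a, ha, haw⟩ := gcov_prim n F hF.1
  set T : ℝ := (2 + 2 ^ n) * dd F with hT
  have hT1 : 1 ≤ T := by
    have h1 : (0 : ℝ) < 2 ^ n := by positivity
    have : (1 : ℝ) ≤ 2 + 2 ^ n := by linarith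
    exact one_le_mul_of_one_le_of_one_le this hdd
  set M : ℝ := Ideal.absNorm 𝔞 * (dd F * 2 ^ (n + 1)) with hM
  have hM0 : 0 < M := by positivity
  have hP : 0 < PG F f := PG_pos hf
  set l : ℝ := (M / PG F f) ^ ((1 : ℝ) / n) with hl
  have hMP : 0 < M / PG F f := div_pos hM0 hP
  have hl0 : 0 ≤ l := Real.rpow_nonneg hMP.le _
  have hln : l ^ n = M / PG F f := by
    rw [hl, one_div]
    exact Real.rpow_inv_natCast_pow hMP.le (by omega)
  have hprod : PG F (fun w => l * f w) = M := by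
    rw [PG_mul hF, hln, div_mul_cancel₀ _ hP.ne']
  obtain ⟨y, hy𝔞, hy0, hyw⟩ := skc_elt n F hF.1 𝔞 h𝔞 (fun w => l * f w)
    (fun w => mul_nonneg hl0 (hf w).le) (by
    rw [hprod, hM]
    have h1 : Real.sqrt (dd F) * 2 ^ n ≤ dd F * 2 ^ n := by gcongr
    have h2 : dd F * 2 ^ n < dd F * 2 ^ (n + 1) := by
      rw [pow_succ]
      have : 0 < dd F * 2 ^ n := by positivity
      nlinarith
    have h3 := h1.trans_lt h2
    have : (0 : ℝ) < Ideal.absNorm 𝔞 := by linarith
    exact mul_lt_mul_of_pos_left h3 this)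
  set v : Fin n → mixedEmbedding.mixedSpace F := fun i : Fin n =>
      mixedEmbedding F ((y * a ^ (i : ℕ) : 𝓞 F) : F) with hv
  have hspan := gcov_span n F hF.1 a y ha hy0
  set b := basisOfTopLeSpanOfCardEqFinrank v hspan (by
    rw [Fintype.card_fin, mixedEmbedding.finrank, hF.1]) with hb
  have hbv : ∀ i, b i = v i := fun i => by
    rw [hb, coe_basisOfTopLeSpanOfCardEqFinrank]
  have hvn : ∀ i, ∀ w : InfinitePlace F,
      mixedEmbedding.normAtPlace w (v i) ≤ l * f w * T ^ n := by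
    intro i w
    have h1 : mixedEmbedding.normAtPlace w (v i) = w ((y * a ^ (i : ℕ) : 𝓞 F) : F) := by
      rw [hv, mixedEmbedding.normAtPlace_apply]
    rw [h1]
    have h2 : w ((y * a ^ (i : ℕ) : 𝓞 F) : F) = w (y : F) * w (a : F) ^ (i : ℕ) := by
      rw [← map_pow, ← map_mul]
      simp
    rw [h2]
    have h3 : w (a : F) ^ (i : ℕ) ≤ T ^ (i : ℕ) := by
      gcongr
      exact haw w
    have h4 : T ^ (i : ℕ) ≤ T ^ n := pow_le_pow_right₀ hT1 i.2.le
    exact mul_le_mul (hyw w) (h3.trans h4) (by positivity) (mul_nonneg hl0 (hf w).le)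
  obtain ⟨α, hα, hαx⟩ : ∃ α ∈ 𝔞, mixedEmbedding F (α : F) =
      (ZSpan.floor b x : mixedEmbedding.mixedSpace F) := by
    have hmem : (ZSpan.floor b x : mixedEmbedding.mixedSpace F) ∈
        Submodule.span ℤ (Set.range b) := (ZSpan.floor b x).2
    generalize (ZSpan.floor b x : mixedEmbedding.mixedSpace F) = z at hmem
    induction hmem using Submodule.span_induction with
    | mem x hx =>
      obtain ⟨i, rfl⟩ := hx
      exact ⟨y * a ^ (i : ℕ), 𝔞.mul_mem_right _ hy𝔞, (hbv i).symm⟩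
    | zero => exact ⟨0, 𝔞.zero_mem, by simp⟩
    | add u v _ _ hu hv =>
      obtain ⟨α, hα, hα'⟩ := hu
      obtain ⟨β, hβ, hβ'⟩ := hv
      refine ⟨α + β, 𝔞.add_mem hα hβ, ?_⟩
      rw [← hα', ← hβ', ← map_add]
      simp
    | smul q u _ hu =>
      obtain ⟨α, hα, hα'⟩ := hu
      refine ⟨q * α, 𝔞.mul_mem_left _ hα, ?_⟩
      rw [← hα', ← map_zsmul]
      simp
  refine ⟨α, hα, fun w => ?_⟩
  have hnorm : mixedEmbedding.normAtPlace w (x - mixedEmbedding F (α : F)) ≤ n * (l * f w * T ^ n) := by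
    rw [hαx]
    exact skc_fract b x w _ fun i => by
      rw [hbv i]
      exact hvn i w
  have hnn0 := mixedEmbedding.normAtPlace_nonneg w (x - mixedEmbedding F (α : F))
  have hfw := (hf w).le
  calc mixedEmbedding.normAtPlace w (x - mixedEmbedding F (α : F)) ^ n * PG F f ≤
      (n * (l * f w * T ^ n)) ^ n * PG F f := by gcongr
    _ = n ^ n * (l ^ n * PG F f) * T ^ (n * n) * f w ^ n := by
        rw [mul_pow, mul_pow, mul_pow, ← pow_mul]
        ring
    _ = (n : ℝ) ^ n * 2 ^ (n + 1) * (2 + 2 ^ n) ^ (n * n) * dd F ^ (n * n + 1) *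
          Ideal.absNorm 𝔞 * f w ^ n := by
        rw [hln, div_mul_cancel₀ _ hP.ne', hM, hT, mul_pow, pow_succ (dd F)]
        ring

end H1.GS
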