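import Pool.Agent.H1.GS.Rad
import Pool.Agent.H1.LS4.Un1

/-!
# [H1 GS UN1] Unfolding over the units, any signature

As H1/LS4/Un1.
-/

set_option autoImplicit false

open scoped NumberField Classical
open NumberField NumberField.Units NumberField.Units.dirichletUnitTheorem H63.MA H36.QA H57.TLS MeasureTheory H1.LS4

noncomputable section

namespace H1.GS

variable {F : Type} [Field F] [NumberField F]

/-- the point of the unit lattice of a unit -/
private def lat (u : (𝓞 F)ˣ) : unitLattice F :=
  ⟨logEmbedding F (Additive.ofMul u), Submodule.mem_map_of_mem trivial⟩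

private theorem lat_surj (l : unitLattice F) : ∃ u : (𝓞 F)ˣ, lat u = l := by
  obtain ⟨l, x, -, hx⟩ := l
  exact ⟨x.toMul, Subtype.ext hx⟩

private theorem lat_mul (u v : (𝓞 F)ˣ) : lat (u * v) = lat u + lat v := by
  apply Subtype.ext
  show logEmbedding F (Additive.ofMul (u * v)) = _
  rw [ofMul_mul, map_add]
  rfl

private theorem lat_torsion (t : torsion F) : lat (t : (𝓞 F)ˣ) = 0 := by
  apply Subtype.ext
  exact logEmbedding_eq_zero_iff.2 t.2

private theorem tsum_lat (φ : unitLattice F → ENNReal) :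
    ∑' u : (𝓞 F)ˣ, φ (lat u) = torsionOrder F * ∑' l, φ l := by
  choose s hs using lat_surj (F := F)
  have hker : ∀ u : (𝓞 F)ˣ, (s (lat u))⁻¹ * u ∈ torsion F := by
    intro u
    rw [← logEmbedding_eq_zero_iff]
    have h1 : lat ((s (lat u))⁻¹ * u) = 0 := by
      have h2 : lat (s (lat u) * ((s (lat u))⁻¹ * u)) = lat u := by
        rw [mul_inv_cancel_left]
      rw [lat_mul, hs] at h2
      exact left_eq_add.1 h2.symm
    exact congrArg Subtype.val h1
  let e : (unitLattice F) × torsion F ≃ (𝓞 F)ˣ :=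
    { toFun := fun p => s p.1 * p.2
      invFun := fun u => (lat u, ⟨(s (lat u))⁻¹ * u, hker u⟩)
      left_inv := by
        rintro ⟨l, t⟩
        have h1 : lat (s l * (t : (𝓞 F)ˣ)) = l := by
          rw [lat_mul, hs, lat_torsion, add_zero]
        refine Prod.ext h1 (Subtype.ext ?_)
        show (s (lat (s l * (t : (𝓞 F)ˣ))))⁻¹ * (s l * (t : (𝓞 F)ˣ)) = t
        rw [h1, inv_mul_cancel_left]
      right_inv := by
        intro u
        show s (lat u) * ((s (lat u))⁻¹ * u) = u
        rw [mul_inv_cancel_left] }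
  have he : ∀ p, lat (e p) = p.1 := by
    rintro ⟨l, t⟩
    show lat (s l * (t : (𝓞 F)ˣ)) = l
    rw [lat_mul, hs, lat_torsion, add_zero]
  rw [← e.tsum_eq (fun u => φ (lat u))]
  have h1 : ∀ p : (unitLattice F) × torsion F, φ (lat (e p)) = φ p.1 := fun p => by rw [he]
  rw [tsum_congr h1, ENNReal.tsum_prod (f := fun l (_ : torsion F) => φ l), ← ENNReal.tsum_mul_left]
  refine tsum_congr fun l => ?_
  have := Fintype.ofFinite (torsion F)
  rw [tsum_fintype, Finset.sum_const, nsmul_eq_mul, Finset.card_univ, ← Nat.card_eq_fintype_card]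
  rfl

theorem un1 (q : ℝ) (α : 𝓞 F) (hα : α ≠ 0) :
    ∑' u : (𝓞 F)ˣ, volume (DU F ∩ {y : logSpace F | BxF (radg y q) ((u : 𝓞 F) * α)}) =
      torsionOrder F * volume {y : logSpace F | BxF (radg y q) α} := by
  have hfd : IsAddFundamentalDomain (unitLattice F) (DU F) (volume : Measure (logSpace F)) :=
    ZLattice.isAddFundamentalDomain (basisUnitLattice F) volume
  have hinv : VAddInvariantMeasure (unitLattice F) (logSpace F) volume :=
    (inferInstance : VAddInvariantMeasure (unitLattice F).toAddSubgroup (logSpace F) volume)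
  have h1 := hfd.measure_eq_tsum {y : logSpace F | BxF (radg y q) α}
  rw [h1, ← tsum_lat]
  refine tsum_congr fun u => ?_
  rw [Set.inter_comm]
  congr 2
  ext y
  rw [Set.mem_ofPred_eq, rad_unit u q α y, Set.mem_vadd_set_iff_neg_vadd_mem, Set.mem_ofPred_eq]
  have h2 : -(lat u) +ᵥ y = y - logEmbedding F (Additive.ofMul u) := by
    show -(logEmbedding F (Additive.ofMul u)) + y = y - logEmbedding F (Additive.ofMul u)
    rw [neg_add_eq_sub]
  rw [h2]

end H1.GS
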