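import Pool.Agent.H1.GS.Un1

/-!
# [H1 GS UN2] The integral over the fundamental domain of the sums over the boxes, any signature

As H1/LS4/Un2.
-/

set_option autoImplicit false

open scoped NumberField Classical
open NumberField NumberField.Units NumberField.Units.dirichletUnitTheorem H63.MA H36.QA H57.TLS MeasureTheory H1.LS4

noncomputable section

namespace H1.GS

variable {F : Type} [Field F] [NumberField F]

private theorem rad_bdd (F : Type) [Field F] [NumberField F] (q : ℝ) :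
    ∃ B : ℝ, ∀ y ∈ DU F, ∀ w, radg y q w ≤ B := by
  obtain ⟨C, hC⟩ := (DU_bdd (F := F)).exists_norm_le
  refine ⟨Real.exp (|q| / (lrk F + 1) + (lrk F + 1) * |C|), fun y hy w => ?_⟩
  unfold radg
  refine Real.exp_le_exp.2 ?_
  have hv : ∀ v, |y v| ≤ |C| := fun v => ((norm_le_pi_norm y v).trans (hC y hy)).trans (le_abs_self C)
  have h0 : 0 ≤ |C| := abs_nonneg C
  have hl : (0 : ℝ) ≤ lrk F := Nat.cast_nonneg _
  have key : (if h : w = w₀ then - ∑ v, y v else y ⟨w, h⟩) ≤ (lrk F + 1) * |C| := by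
    by_cases h : w = w₀
    · rw [dif_pos h]
      have h1 : |∑ v, y v| ≤ lrk F * |C| := by
        refine (Finset.abs_sum_le_sum_abs _ _).trans ?_
        refine (Finset.sum_le_sum fun v _ => hv v).trans ?_
        rw [Finset.sum_const, nsmul_eq_mul, Finset.card_univ]
        exact le_of_eq rfl
      have h2 := (abs_le.1 h1).1
      nlinarith
    · rw [dif_neg h]
      have h1 := (abs_le.1 (hv ⟨w, h⟩)).2
      nlinarith
  have hq : q / (lrk F + 1) ≤ |q| / (lrk F + 1) := div_le_div_of_nonneg_right (le_abs_self q) (by positivity)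
  have hpos : 0 ≤ |q| / ((lrk F : ℝ) + 1) + (lrk F + 1) * |C| := by positivity
  rw [div_le_iff₀ (mult_pos' w)]
  have h1 := one_le_mult' w
  nlinarith

private theorem sum_bxf {q B : ℝ} (𝔫 : Ideal (𝓞 F)) (g : Ideal (𝓞 F) → ℂ) {y : logSpace F}
    (hB : ∀ w, radg y q w ≤ B) :
    ∑ α ∈ bxf 𝔫 (radg y q), g (qt 𝔫 α) =
      ∑ α ∈ bxf 𝔫 (fun _ => B), Set.indicator {y : logSpace F | BxF (radg y q) α} (fun _ => g (qt 𝔫 α)) y := by
  have h1 : bxf 𝔫 (radg y q) = (bxf 𝔫 (fun _ => B)).filter fun α => BxF (radg y q) α := by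
    ext α
    rw [Finset.mem_filter, mem_bxf, mem_bxf]
    constructor
    · rintro ⟨h1, h2, h3⟩
      exact ⟨⟨h1, h2, fun w => (h3 w).trans (hB w)⟩, h3⟩
    · rintro ⟨⟨h1, h2, -⟩, h3⟩
      exact ⟨h1, h2, h3⟩
  rw [h1, Finset.sum_filter]
  refine Finset.sum_congr rfl fun α _ => ?_
  rfl

private theorem int_ind (q : ℝ) (α : 𝓞 F) (c : ℂ) :
    IntegrableOn (Set.indicator {y : logSpace F | BxF (radg y q) α} fun _ => c) (DU F) := by
  have h : IntegrableOn (fun _ : logSpace F => c) (DU F) := integrableOn_const DU_fin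
  exact h.indicator (rad_meas q α)

private theorem norm_le_exp {q : ℝ} {α : 𝓞 F} {y : logSpace F} (h : BxF (radg y q) α) :
    (Ideal.absNorm (Ideal.span {α}) : ℝ) ≤ Real.exp q := by
  rw [← prod_mult_eq_norm α, ← rad_prod y q]
  show _ ≤ ∏ w, radg y q w ^ w.mult
  refine Finset.prod_le_prod (fun w _ => pow_nonneg (apply_nonneg w _) _) fun w _ => ?_
  exact pow_le_pow_left₀ (apply_nonneg w _) (h w) _

private theorem span_qt {𝔫 : Ideal (𝓞 F)} (h𝔫 : 𝔫 ≠ ⊥) {α : 𝓞 F} (hα : α ∈ 𝔫) :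
    Ideal.span {α} = qt 𝔫 α * 𝔫 := by
  obtain ⟨m, hm⟩ := idPer_exists hα
  rw [qt_spec h𝔫 hm, hm]

private theorem un2_fib (𝔫 : Ideal (𝓞 F)) (h𝔫 : 𝔫 ≠ ⊥) {q B : ℝ}
    (hB : ∀ y ∈ DU F, ∀ w, radg y q w ≤ B) {I : Ideal (𝓞 F)} (hI : I ∈ cls 𝔫 (Real.exp q / Ideal.absNorm 𝔫)) :
    ∑ α ∈ (bxf 𝔫 (fun _ => B)).filter (fun α => qt 𝔫 α = I),
        (volume (DU F ∩ {y : logSpace F | BxF (radg y q) α})).toReal =
      torsionOrder F *
        (smp (lrk F) * (q - Real.log (Ideal.absNorm 𝔫) - Real.log (Ideal.absNorm I)) ^ lrk F) := by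
  have hN : 0 < (Ideal.absNorm 𝔫 : ℝ) := by
    have : Ideal.absNorm 𝔫 ≠ 0 := by rwa [Ne, Ideal.absNorm_eq_zero_iff]
    exact_mod_cast Nat.pos_of_ne_zero this
  unfold cls at hI
  rw [Finset.mem_filter, mem_IN (by positivity)] at hI
  obtain ⟨⟨hI1, hI0⟩, hI2⟩ := hI
  obtain ⟨α₀, hα₀⟩ := hI2
  have hs : Ideal.span {α₀} = I * 𝔫 := hα₀.symm
  have hNI : 0 < (Ideal.absNorm I : ℝ) := by
    have : Ideal.absNorm I ≠ 0 := by rwa [Ne, Ideal.absNorm_eq_zero_iff]
    exact_mod_cast Nat.pos_of_ne_zero this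
  have hα₀0 : α₀ ≠ 0 := by
    rintro rfl
    have h1 : I * 𝔫 = ⊥ := by rw [← hs]; simp
    have h2 : Ideal.absNorm (I * 𝔫) = 0 := by rw [h1, Ideal.absNorm_bot]
    rw [map_mul] at h2
    have h3 : ((Ideal.absNorm I * Ideal.absNorm 𝔫 : ℕ) : ℝ) = 0 := by rw [h2]; simp
    push_cast at h3
    have := mul_pos hNI hN
    linarith
  have hnorm : (Ideal.absNorm (Ideal.span {α₀}) : ℝ) = Ideal.absNorm I * Ideal.absNorm 𝔫 := by
    rw [hs, map_mul]
    push_cast
    ring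
  have hlog : Real.log (Ideal.absNorm (Ideal.span {α₀})) =
      Real.log (Ideal.absNorm 𝔫) + Real.log (Ideal.absNorm I) := by
    rw [hnorm, Real.log_mul hNI.ne' hN.ne', add_comm]
  have hle : Real.log (Ideal.absNorm (Ideal.span {α₀})) ≤ q := by
    rw [Real.log_le_iff_le_exp (by rw [hnorm]; positivity), hnorm]
    rwa [le_div_iff₀ hN] at hI1
  have hun := un1 q α₀ hα₀0
  rw [rad_vol q α₀ hα₀0, if_pos hle] at hun
  -- the sum over the units
  set f : 𝓞 F → ENNReal := fun α => volume (DU F ∩ {y : logSpace F | BxF (radg y q) α}) with hf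
  set f' : 𝓞 F → ENNReal := fun α => if Ideal.span {α} = I * 𝔫 then f α else 0 with hf'
  have hspan : ∀ u : (𝓞 F)ˣ, Ideal.span {(u : 𝓞 F) * α₀} = I * 𝔫 := by
    intro u
    rw [← hs]
    exact Ideal.span_singleton_mul_left_unit u.isUnit α₀
  have hinj : Function.Injective fun u : (𝓞 F)ˣ => (u : 𝓞 F) * α₀ := by
    intro u v huv
    exact Units.ext (mul_right_cancel₀ hα₀0 huv)
  have h1 : ∑' u : (𝓞 F)ˣ, f ((u : 𝓞 F) * α₀) = ∑' α, f' α := by
    have h2 : ∀ u : (𝓞 F)ˣ, f ((u : 𝓞 F) * α₀) = f' ((u : 𝓞 F) * α₀) := by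
      intro u
      rw [hf']
      dsimp only
      rw [if_pos (hspan u)]
    rw [tsum_congr h2]
    refine hinj.tsum_eq ?_
    intro α hα
    have h3 : Ideal.span {α} = I * 𝔫 := by
      by_contra h
      exact hα (if_neg h)
    rw [← hs, Ideal.span_singleton_eq_span_singleton] at h3
    obtain ⟨u, hu⟩ := h3.symm
    exact ⟨u, by rw [← hu]; exact mul_comm _ _⟩
  have h2 : ∑' α, f' α = ∑ α ∈ (bxf 𝔫 (fun _ => B)).filter (fun α => qt 𝔫 α = I), f α := by
    rw [tsum_eq_sum (s := (bxf 𝔫 (fun _ => B)).filter (fun α => qt 𝔫 α = I))]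
    · refine Finset.sum_congr rfl fun α hα => ?_
      rw [Finset.mem_filter, mem_bxf] at hα
      rw [hf']
      dsimp only
      rw [if_pos]
      rw [span_qt h𝔫 hα.1.1, hα.2]
    · intro α hα
      by_contra h
      refine hα ?_
      have h3 : Ideal.span {α} = I * 𝔫 := by
        by_contra h'
        exact h (if_neg h')
      have h4 : f α ≠ 0 := by
        rw [hf'] at h
        dsimp only at h
        rwa [if_pos h3] at h
      have h5 : (DU F ∩ {y : logSpace F | BxF (radg y q) α}).Nonempty := by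
        by_contra h6
        rw [Set.not_nonempty_iff_eq_empty] at h6
        refine h4 ?_
        rw [hf]
        dsimp only
        rw [h6, measure_empty]
      obtain ⟨y, hy1, hy2⟩ := h5
      rw [Finset.mem_filter, mem_bxf]
      refine ⟨⟨?_, ?_, fun w => (hy2 w).trans (hB y hy1 w)⟩, qt_spec h𝔫 h3⟩
      · rw [← Ideal.span_singleton_le_iff_mem, h3]
        exact Ideal.mul_le_right
      · rintro rfl
        have h6 : Ideal.span {α₀} = ⊥ := by rw [hs, ← h3]; simp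
        rw [Ideal.span_singleton_eq_bot] at h6
        exact hα₀0 h6
  have hfin : ∀ α, f α ≠ ⊤ := fun α => ((measure_mono Set.inter_subset_left).trans_lt
    (lt_top_iff_ne_top.2 DU_fin)).ne
  have h3 : ∑ α ∈ (bxf 𝔫 (fun _ => B)).filter (fun α => qt 𝔫 α = I), (f α).toReal =
      (∑' u : (𝓞 F)ˣ, f ((u : 𝓞 F) * α₀)).toReal := by
    rw [h1, h2, ENNReal.toReal_sum fun α _ => hfin α]
  rw [h3, hun, ENNReal.toReal_mul, ENNReal.toReal_natCast, hlog]
  congr 1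
  rw [ENNReal.toReal_ofReal]
  · rw [sub_sub]
  · refine mul_nonneg ENNReal.toReal_nonneg (pow_nonneg ?_ _)
    linarith

theorem un2_int (𝔫 : Ideal (𝓞 F)) (h𝔫 : 𝔫 ≠ ⊥) (q : ℝ) (g : Ideal (𝓞 F) → ℂ) :
    IntegrableOn (fun y : logSpace F => ∑ α ∈ bxf 𝔫 (radg y q), g (qt 𝔫 α)) (DU F) := by
  obtain ⟨B, hB⟩ := rad_bdd F q
  have h1 : IntegrableOn (fun y : logSpace F => ∑ α ∈ bxf 𝔫 (fun _ => B),
      Set.indicator {y : logSpace F | BxF (radg y q) α} (fun _ => g (qt 𝔫 α)) y) (DU F) :=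
    integrable_finset_sum _ fun α _ => int_ind q α _
  refine h1.congr_fun (fun y hy => ?_) DU_meas
  exact (sum_bxf 𝔫 g (hB y hy)).symm

theorem un2 (𝔫 : Ideal (𝓞 F)) (h𝔫 : 𝔫 ≠ ⊥) (q : ℝ) (g : Ideal (𝓞 F) → ℂ) :
    ∫ y in DU F, ∑ α ∈ bxf 𝔫 (radg y q), g (qt 𝔫 α) =
      (torsionOrder F : ℂ) * ∑ I ∈ cls 𝔫 (Real.exp q / Ideal.absNorm 𝔫), g I *
        ((smp (lrk F) * (q - Real.log (Ideal.absNorm 𝔫) - Real.log (Ideal.absNorm I)) ^ lrk F : ℝ) : ℂ) := by
  obtain ⟨B, hB⟩ := rad_bdd F q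
  have h1 : ∫ y in DU F, ∑ α ∈ bxf 𝔫 (radg y q), g (qt 𝔫 α) =
      ∑ α ∈ bxf 𝔫 (fun _ => B), g (qt 𝔫 α) *
        (((volume (DU F ∩ {y : logSpace F | BxF (radg y q) α})).toReal : ℝ) : ℂ) := by
    rw [setIntegral_congr_fun DU_meas fun y hy => sum_bxf 𝔫 g (hB y hy),
      integral_finset_sum _ fun α _ => int_ind q α _]
    refine Finset.sum_congr rfl fun α _ => ?_
    rw [integral_indicator_const _ (rad_meas q α), measureReal_restrict_apply (rad_meas q α), Set.inter_comm,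
      Complex.real_smul, mul_comm]
    rfl
  rw [h1, Finset.mul_sum]
  have hN : 0 < (Ideal.absNorm 𝔫 : ℝ) := by
    have : Ideal.absNorm 𝔫 ≠ 0 := by rwa [Ne, Ideal.absNorm_eq_zero_iff]
    exact_mod_cast Nat.pos_of_ne_zero this
  have hz : ∀ α ∈ bxf 𝔫 (fun _ => B), qt 𝔫 α ∉ cls 𝔫 (Real.exp q / Ideal.absNorm 𝔫) →
      g (qt 𝔫 α) * (((volume (DU F ∩ {y : logSpace F | BxF (radg y q) α})).toReal : ℝ) : ℂ) = 0 := by
    intro α hα h2
    have h3 : DU F ∩ {y : logSpace F | BxF (radg y q) α} = ∅ := by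
      by_contra h4
      rw [← Ne, ← Set.nonempty_iff_ne_empty] at h4
      obtain ⟨y, -, hy⟩ := h4
      refine h2 ?_
      rw [mem_bxf] at hα
      have h5 := norm_le_exp hy
      have h6 := span_qt h𝔫 hα.1
      unfold cls
      rw [Finset.mem_filter, mem_IN (by positivity)]
      refine ⟨⟨?_, ?_⟩, ?_⟩
      · rw [le_div_iff₀ hN]
        rw [h6, map_mul] at h5
        exact_mod_cast h5
      · intro h7
        rw [h7, Ideal.bot_mul, Ideal.span_singleton_eq_bot] at h6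
        exact hα.2.1 h6
      · exact ⟨α, h6.symm⟩
    rw [h3, measure_empty]
    simp
  rw [← Finset.sum_filter_add_sum_filter_not (bxf 𝔫 (fun _ => B))
    (fun α => qt 𝔫 α ∈ cls 𝔫 (Real.exp q / Ideal.absNorm 𝔫))]
  rw [Finset.sum_eq_zero (s := (bxf 𝔫 (fun _ => B)).filter
    (fun α => ¬ qt 𝔫 α ∈ cls 𝔫 (Real.exp q / Ideal.absNorm 𝔫))) fun α hα => by
      rw [Finset.mem_filter] at hα
      exact hz α hα.1 hα.2, add_zero]
  rw [← Finset.sum_fiberwise_of_maps_to (g := fun α => qt 𝔫 α)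
    (t := cls 𝔫 (Real.exp q / Ideal.absNorm 𝔫)) fun α hα => (Finset.mem_filter.1 hα).2]
  refine Finset.sum_congr rfl fun I hI => ?_
  have h4 : ((bxf 𝔫 (fun _ => B)).filter (fun α => qt 𝔫 α ∈ cls 𝔫 (Real.exp q / Ideal.absNorm 𝔫))).filter
      (fun α => qt 𝔫 α = I) = (bxf 𝔫 (fun _ => B)).filter (fun α => qt 𝔫 α = I) := by
    ext α
    simp only [Finset.mem_filter]
    constructor
    · rintro ⟨⟨h5, -⟩, h6⟩
      exact ⟨h5, h6⟩
    · rintro ⟨h5, h6⟩
      exact ⟨⟨h5, by rw [h6]; exact hI⟩, h6⟩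
  rw [h4]
  have h5 := un2_fib 𝔫 h𝔫 hB hI
  have h6 : ∑ α ∈ (bxf 𝔫 (fun _ => B)).filter (fun α => qt 𝔫 α = I),
      g (qt 𝔫 α) * (((volume (DU F ∩ {y : logSpace F | BxF (radg y q) α})).toReal : ℝ) : ℂ) =
      g I * ((∑ α ∈ (bxf 𝔫 (fun _ => B)).filter (fun α => qt 𝔫 α = I),
        (volume (DU F ∩ {y : logSpace F | BxF (radg y q) α})).toReal : ℝ) : ℂ) := by
    push_cast
    rw [Finset.mul_sum]
    refine Finset.sum_congr rfl fun α hα => ?_
    rw [(Finset.mem_filter.1 hα).2]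
  rw [h6, h5]
  push_cast
  ring

end H1.GS
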